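import Pool.Agent.Lib.MP_188a32_co.GStmts

/-!
# Reflection in the plane of projection: from over-crossings to all crossings
-/

set_option autoImplicit false

namespace Pool.Agent.LinKnot

open scoped Classical Topology
open Filter

/-- The reflection `z ↦ -z`, as a linear map. -/
def mirL : R3 →ₗ[ℝ] R3 where
  toFun p := ![p 0, p 1, -p 2]
  map_add' p q := by
    ext i; fin_cases i <;> simp [add_comm]
  map_smul' c p := by
    ext i; fin_cases i <;> simp

/-- The reflection `z ↦ -z`, as an affine map. -/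
def mir : R3 →ᵃ[ℝ] R3 := mirL.toAffineMap

@[simp] lemma mir_0 (p : R3) : mir p 0 = p 0 := rfl
@[simp] lemma mir_1 (p : R3) : mir p 1 = p 1 := rfl
@[simp] lemma mir_2 (p : R3) : mir p 2 = -p 2 := rfl

@[simp] lemma mir_mir (p : R3) : mir (mir p) = p := by
  ext i; fin_cases i <;> simp

@[simp] lemma mir_comp : (mir : R3 → R3) ∘ mir = id := funext mir_mir

lemma mir_inj : Function.Injective mir := fun p q h => by
  rw [← mir_mir p, h, mir_mir]

@[simp] lemma proj_mir (p : R3) : proj (mir p) = proj p := rfl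

/-- The reflected edge. -/
abbrev mirE (e : R3 × R3) : R3 × R3 := Prod.map mir mir e

@[simp] lemma mirE_fst (e : R3 × R3) : (mirE e).1 = mir e.1 := rfl
@[simp] lemma mirE_snd (e : R3 × R3) : (mirE e).2 = mir e.2 := rfl
@[simp] lemma mirE_mirE (e : R3 × R3) : mirE (mirE e) = e := by
  simp [mirE, Prod.map_map, mir_comp]

lemma mirE_inj : Function.Injective mirE := fun p q h => by
  rw [← mirE_mirE p, h, mirE_mirE]

@[simp] lemma side_mir (e : R3 × R3) (p : R3) : side (mirE e) (mir p) = side e p := rfl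

@[simp] lemma XR_mir (e f : R3 × R3) : XR (mirE e) (mirE f) ↔ XR e f := Iff.rfl

@[simp] lemma OuterE_mir (e : R3 × R3) : OuterE (mirE e) ↔ OuterE e := Iff.rfl

lemma seg_mir (e : R3 × R3) : seg (mirE e) = mir '' seg e := seg_map mir e

lemma ends_mir (e : R3 × R3) : ends (mirE e) = mir '' ends e := ends_map mir e

lemma NC.mir {e f : R3 × R3} (h : NC e f) : NC (mirE e) (mirE f) := by
  intro p hp q hq hpq
  rw [seg_mir] at hp hq
  obtain ⟨p', hp', rfl⟩ := hp
  obtain ⟨q', hq', rfl⟩ := hq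
  rw [proj_mir, proj_mir] at hpq
  obtain ⟨h1, h2, h3⟩ := h p' hp' q' hq' hpq
  rw [ends_mir, ends_mir, h1]
  exact ⟨rfl, h1 ▸ ⟨p', h2, rfl⟩, h1 ▸ ⟨p', h3, rfl⟩⟩

lemma mem_edges_mir {l : List R3} {e : R3 × R3} : mirE e ∈ edges (l.map mir) ↔ e ∈ edges l := by
  rw [edges_map, List.mem_map]
  constructor
  · rintro ⟨f, hf, h⟩
    rwa [← mirE_inj h]
  · intro h
    exact ⟨e, h, rfl⟩

lemma exists_of_mem_edges_mir {l : List R3} {e : R3 × R3} (h : e ∈ edges (l.map mir)) :
    ∃ f ∈ edges l, e = mirE f := by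
  rw [edges_map, List.mem_map] at h
  obtain ⟨f, hf, rfl⟩ := h
  exact ⟨f, hf, rfl⟩

@[simp] lemma map_mir_map_mir (l : List R3) : (l.map mir).map mir = l := by
  rw [List.map_map, mir_comp, List.map_id]

lemma State.mir {l : List R3} (h : State l) : State (l.map mir) where
  knot := h.knot.map _ mir_inj
  axis := by
    intro p hp h1
    rw [List.mem_map] at hp
    obtain ⟨q, hq, rfl⟩ := hp
    rw [mir_2, h.axis q hq h1, neg_zero]
  types := by
    intro e he
    obtain ⟨f, hf, rfl⟩ := exists_of_mem_edges_mir he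
    exact h.types f hf
  pages := by
    intro p hp q hq hpq h1 h2
    rw [List.mem_map] at hp hq
    obtain ⟨p', hp', rfl⟩ := hp
    obtain ⟨q', hq', rfl⟩ := hq
    have := h.pages p' hp' q' hq' (fun h => hpq (by rw [h])) h1 h2
    simp only [mir_1, mir_2]
    intro hh
    apply this
    linarith
  bind := by
    intro e he f hf hef h1
    obtain ⟨e', he', rfl⟩ := exists_of_mem_edges_mir he
    obtain ⟨f', hf', rfl⟩ := exists_of_mem_edges_mir hf
    exact h.bind e' he' f' hf' (mir_inj hef) h1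
  flat := by
    intro e he ho
    obtain ⟨e', he', rfl⟩ := exists_of_mem_edges_mir he
    exact h.flat e' he' ho
  pair := by
    intro e he f hf hoe hof hne
    obtain ⟨e', he', rfl⟩ := exists_of_mem_edges_mir he
    obtain ⟨f', hf', rfl⟩ := exists_of_mem_edges_mir hf
    rcases h.pair e' he' f' hf' hoe hof (fun h => hne (by rw [h])) with h1 | h1
    · exact Or.inl h1.mir
    · exact Or.inr h1
  single := by
    intro e he f hf g hg hoe hof hog h1 h2
    obtain ⟨e', he', rfl⟩ := exists_of_mem_edges_mir he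
    obtain ⟨f', hf', rfl⟩ := exists_of_mem_edges_mir hf
    obtain ⟨g', hg', rfl⟩ := exists_of_mem_edges_mir hg
    rw [h.single e' he' f' hf' g' hg' hoe hof hog h1 h2]

@[simp] lemma nIn_mir (l : List R3) : nIn (l.map mir) = nIn l := by
  unfold nIn
  rw [List.filter_map, List.length_map]
  rfl

@[simp] lemma nOut_mir (l : List R3) : nOut (l.map mir) = nOut l := by
  unfold nOut
  rw [edges_map, List.filter_map, List.length_map]
  rfl

lemma exists_XR_mir (l : List R3) (e : R3 × R3) :
    (∃ f ∈ edges (l.map mir), OuterE f ∧ XR (mirE e) f) ↔ ∃ f ∈ edges l, OuterE f ∧ XR e f := by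
  constructor
  · rintro ⟨f, hf, ho, hx⟩
    obtain ⟨f', hf', rfl⟩ := exists_of_mem_edges_mir hf
    exact ⟨f', hf', ho, hx⟩
  · rintro ⟨f, hf, ho, hx⟩
    exact ⟨mirE f, mem_edges_mir.mpr hf, ho, hx⟩

@[simp] lemma nX_mir (l : List R3) : nX (l.map mir) = nX l := by
  unfold nX
  rw [edges_map, List.filter_map, List.length_map]
  congr 1
  refine List.filter_congr fun e _ => ?_
  simp only [Function.comp_apply]
  congr 1
  rw [← edges_map]
  exact propext (and_congr Iff.rfl (exists_XR_mir l e))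

lemma Isotopic.mir {l l' : List R3} (h : Isotopic l l') :
    Isotopic (l.map LinKnot.mir) (l'.map LinKnot.mir) :=
  h.map _ mir_inj

lemma Under.mir {e f : R3 × R3} (h : Under e f) : Over (mirE e) (mirE f) := by
  intro p hp q hq hpq
  rw [seg_mir] at hp hq
  obtain ⟨p', hp', rfl⟩ := hp
  obtain ⟨q', hq', rfl⟩ := hq
  have := h p' hp' q' hq' hpq
  rw [mir_2, mir_2]
  linarith

/-- Two crossing edges of a state: one of them runs above the other one. -/
theorem over_or_under {l : List R3} (h : State l) {e f : R3 × R3} (he : e ∈ edges l)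
    (hf : f ∈ edges l) (hoe : OuterE e) (hof : OuterE f) (hx : XR e f) : Over e f ∨ Under e f := by
  obtain ⟨α, hα, β, hβ, hp⟩ := hx.exists_point
  set p := (1 - α) • e.1 + α • e.2 with hpdef
  set q := (1 - β) • f.1 + β • f.2 with hqdef
  have hpe : p ∈ seg e := ⟨1 - α, α, by linarith [hα.2], hα.1.le, by ring, rfl⟩
  have hqf : q ∈ seg f := ⟨1 - β, β, by linarith [hβ.2], hβ.1.le, by ring, rfl⟩
  have hne : p ≠ q := fun heq =>
    Set.disjoint_left.1 (h.pre.disj e he f hf hoe hof hx) hpe (heq ▸ hqf)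
  have h2 : p 2 ≠ q 2 := by
    intro h2
    apply hne
    have h0 : p 0 = q 0 := congrArg Prod.fst hp
    have h1 : p 1 = q 1 := congrArg Prod.snd hp
    ext i; fin_cases i
    · exact h0
    · exact h1
    · exact h2
  rcases lt_or_gt_of_ne h2 with hlt | hgt
  · right
    intro p' hp' q' hq' hpq'
    obtain ⟨r1, r2⟩ := hx.unique hpe hqf hp hp' hq' hpq'
    rw [← r1, ← r2]; exact hlt
  · left
    intro p' hp' q' hq' hpq'
    obtain ⟨r1, r2⟩ := hx.unique hpe hqf hp hp' hq' hpq'
    rw [← r1, ← r2]; exact hgt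

theorem absorb_full (h : AbsorbStmt Over) : AbsorbStmt (fun _ _ => True) := by
  intro x y ρ v w hS ho hvw hovw hx hv _
  have he : (x, y) ∈ edges (x :: y :: ρ) := by rw [edges_cons_cons]; exact List.mem_cons_self
  rcases over_or_under hS he hvw ho hovw hx with hq | hq
  · exact h x y ρ v w hS ho hvw hovw hx hv hq
  · obtain ⟨L', h1, h2, h3, h4, h5, h6⟩ := h (mir x) (mir y) (ρ.map mir) (mir v) (mir w) hS.mir ho
      (mem_edges_mir.mpr hvw) hovw hx hv hq.mir
    refine ⟨L'.map mir, h1.mir, ?_, ?_, ?_, ?_, ?_⟩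
    · have := h2.mir
      simpa using this
    · have e := nX_mir (x :: y :: ρ)
      rw [List.map_cons, List.map_cons] at e
      rw [nX_mir, ← e]; exact h3
    · have e := nOut_mir (x :: y :: ρ)
      rw [List.map_cons, List.map_cons] at e
      rw [nOut_mir, ← e]; exact h4
    · have e := nIn_mir (x :: y :: ρ)
      rw [List.map_cons, List.map_cons] at e
      rw [nIn_mir, ← e]; exact h5
    · rw [nIn_mir]; exact h6

theorem slide_full (h : SlideStmt Over) : SlideStmt (fun _ _ => True) := by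
  intro x y ρ g0 v w hS ho hvw hgv hovw hogv hx hv _ hno
  have he : (x, y) ∈ edges (x :: y :: ρ) := by rw [edges_cons_cons]; exact List.mem_cons_self
  rcases over_or_under hS he hvw ho hovw hx with hq | hq
  · exact h x y ρ g0 v w hS ho hvw hgv hovw hogv hx hv hq hno
  · have hno' : ∀ k ∈ edges (mir x :: mir y :: ρ.map mir), OuterE k → ¬ XR (mir g0, mir v) k := by
      intro k hk hok hxk
      obtain ⟨k', hk', rfl⟩ := exists_of_mem_edges_mir (l := x :: y :: ρ) hk
      exact hno k' hk' hok hxk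
    obtain ⟨N, h1, h2, ⟨k, hk, hok, hxk⟩, h4, h5, h6, h7⟩ := h (mir x) (mir y) (ρ.map mir) (mir g0)
      (mir v) (mir w) hS.mir ho (mem_edges_mir.mpr hvw) (mem_edges_mir.mpr hgv) hovw hogv hx hv
      hq.mir hno'
    have e0 : (x :: y :: ρ).map mir = mir x :: mir y :: ρ.map mir := rfl
    have e1 : (x :: (N.map mir) ++ y :: ρ).map mir = mir x :: N ++ mir y :: ρ.map mir := by
      simp
    have e2 : x :: (N.map mir) ++ y :: ρ = (mir x :: N ++ mir y :: ρ.map mir).map mir := by
      simp
    refine ⟨N.map mir, ?_, ?_, ⟨mirE k, ?_, hok, ?_⟩, ?_, ?_, ?_, ?_⟩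
    · rw [e2]; exact h1.mir
    · have := h2.mir
      rw [← e2] at this
      simpa using this
    · rw [e2]; exact mem_edges_mir.mpr hk
    · exact hxk
    · rw [← nX_mir (x :: (N.map mir) ++ y :: ρ), e1, ← nX_mir (x :: y :: ρ), e0]; exact h4
    · rw [← nOut_mir (x :: (N.map mir) ++ y :: ρ), e1, ← nOut_mir (x :: y :: ρ), e0]; exact h5
    · rw [← nIn_mir (x :: (N.map mir) ++ y :: ρ), e1, ← nIn_mir (x :: y :: ρ), e0]; exact h6
    · rw [← nIn_mir (x :: (N.map mir) ++ y :: ρ), e1, ← nIn_mir (x :: y :: ρ), e0]; exact h7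

end Pool.Agent.LinKnot
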