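import Pool.Agent.Lib.MP_188a32_co.GStmts

/-!
# The planar geometry of the slide step
-/

set_option autoImplicit false

namespace Pool.Agent.LinKnot

open scoped Classical Topology
open Filter

namespace H24

lemma ev_pos {F : ℝ → ℝ} (hF : Continuous F) (h : 0 < F 0) : ∀ᶠ ε in 𝓝[>] (0 : ℝ), 0 < F ε :=
  ((hF.tendsto 0).mono_left nhdsWithin_le_nhds).eventually (lt_mem_nhds h)

/-- Two planar vectors with vanishing cross product, one of them nonzero. -/
lemma exists_smul_of_cross2 {p q : ℝ × ℝ} (hp : p ≠ 0) (h : cross2 p q = 0) :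
    ∃ c : ℝ, q = c • p := by
  unfold cross2 at h
  by_cases h1 : p.1 = 0
  · have h2 : p.2 ≠ 0 := by
      intro h2
      exact hp (Prod.ext h1 h2)
    refine ⟨q.2 / p.2, ?_⟩
    rw [h1] at h
    have h3 : q.1 = 0 := by
      have : p.2 * q.1 = 0 := by linarith
      rcases mul_eq_zero.1 this with h | h
      · exact absurd h h2
      · exact h
    ext
    · simp [h3, h1]
    · simp [h2]
  · refine ⟨q.1 / p.1, ?_⟩
    ext
    · simp [h1]
    · simp only [Prod.smul_snd, smul_eq_mul]
      field_simp
      linarith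

/-- The directions of two consecutive outer edges are not positively parallel. -/
lemma not_pos_parallel {v w g0 : R3} (h : NC (v, w) (g0, v)) (hf : proj v ≠ proj w)
    (hg : proj g0 ≠ proj v) {c : ℝ} (hc : proj g0 - proj v = c • (proj w - proj v)) : c < 0 := by
  by_contra hneg
  push Not at hneg
  have hc0 : 0 < c := by
    rcases hneg.eq_or_lt with h0 | h0
    · exfalso
      rw [← h0, zero_smul, sub_eq_zero] at hc
      exact hg hc
    · exact h0
  -- a common point of the projections
  set s : ℝ := 1 / (2 * (1 + c)) with hs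
  have hs0 : 0 < s := by positivity
  have hs1 : s < 1 := by
    rw [hs, div_lt_one (by positivity)]; linarith
  have hsc : s * c < 1 := by
    rw [hs, div_mul_eq_mul_div, one_mul, div_lt_one (by positivity)]; linarith
  have hp : pt (v, w) (s * c) ∈ seg (v, w) := pt_mem_seg (by positivity) hsc.le
  have hq : pt (g0, v) (1 - s) ∈ seg (g0, v) := pt_mem_seg (by linarith) (by linarith)
  have hpq : proj (pt (v, w) (s * c)) = proj (pt (g0, v) (1 - s)) := by
    rw [proj_pt, proj_pt]
    simp only
    have e1 : (1 - s * c) • proj v + (s * c) • proj w = proj v + s • (c • (proj w - proj v)) := by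
      module
    have e2 : (1 - (1 - s)) • proj g0 + (1 - s) • proj v = proj v + s • (proj g0 - proj v) := by
      module
    rw [e1, e2, hc]
  obtain ⟨k1, k2, k3⟩ := h _ hp _ hq hpq
  have n1 : pt (v, w) (s * c) ≠ v := by
    intro h'
    have h2 : pt (v, w) (s * c) = pt (v, w) 0 := by rw [pt_zero]; exact h'
    have hne : ((v, w) : R3 × R3).1 ≠ ((v, w) : R3 × R3).2 := fun h3 => hf (by
      simp only at h3
      rw [h3])
    rw [eq_pt_iff hne] at h2
    exact (mul_pos hs0 hc0).ne' h2
  have n2 : pt (v, w) (s * c) ≠ w := by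
    intro h'
    have h2 : pt (v, w) (s * c) = pt (v, w) 1 := by rw [pt_one]; exact h'
    have hne : ((v, w) : R3 × R3).1 ≠ ((v, w) : R3 × R3).2 := fun h3 => hf (by
      simp only at h3
      rw [h3])
    rw [eq_pt_iff hne] at h2
    exact hsc.ne h2
  rcases k2 with h' | h'
  · exact n1 h'
  · exact n2 h'

lemma exists_dir {ph ga : ℝ × ℝ} (hp : ph ≠ 0)
    (hpar : ∀ c : ℝ, ga = c • ph → c < 0) {D : ℝ} (hD : D ≠ 0) :
    ∃ m : ℝ × ℝ, D * cross2 ph m < 0 ∧ 0 < cross2 ph m * cross2 m ga := by
  by_cases hC : cross2 ph ga = 0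
  · obtain ⟨c, hc⟩ := exists_smul_of_cross2 hp hC
    have hc0 := hpar c hc
    have hn : 0 < ph.1 ^ 2 + ph.2 ^ 2 := by
      by_contra h
      push Not at h
      have h1 : ph.1 = 0 := by nlinarith [sq_nonneg ph.1, sq_nonneg ph.2]
      have h2 : ph.2 = 0 := by nlinarith [sq_nonneg ph.1, sq_nonneg ph.2]
      exact hp (Prod.ext h1 h2)
    refine ⟨(D * ph.2, -(D * ph.1)), ?_, ?_⟩
    · have e : D * cross2 ph (D * ph.2, -(D * ph.1)) = -(D ^ 2 * (ph.1 ^ 2 + ph.2 ^ 2)) := by
        unfold cross2; ring
      rw [e]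
      have : 0 < D ^ 2 := by positivity
      have := mul_pos this hn
      linarith
    · have e : cross2 ph (D * ph.2, -(D * ph.1)) * cross2 (D * ph.2, -(D * ph.1)) ga
          = (-c) * (D ^ 2 * (ph.1 ^ 2 + ph.2 ^ 2) ^ 2) := by
        rw [hc]; unfold cross2
        simp only [Prod.smul_fst, Prod.smul_snd, smul_eq_mul]
        ring
      rw [e]
      have : 0 < D ^ 2 := by positivity
      exact mul_pos (by linarith) (by positivity)
  · refine ⟨(-(cross2 ph ga * D)) • (ph + ga), ?_, ?_⟩
    · have e : D * cross2 ph ((-(cross2 ph ga * D)) • (ph + ga)) = -((cross2 ph ga * D) ^ 2) := by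
        unfold cross2
        simp only [Prod.smul_fst, Prod.smul_snd, smul_eq_mul, Prod.fst_add, Prod.snd_add]
        ring
      rw [e]
      have : cross2 ph ga * D ≠ 0 := mul_ne_zero hC hD
      have : 0 < (cross2 ph ga * D) ^ 2 := by positivity
      linarith
    · have e : cross2 ph ((-(cross2 ph ga * D)) • (ph + ga)) *
          cross2 ((-(cross2 ph ga * D)) • (ph + ga)) ga = ((cross2 ph ga) ^ 2 * D) ^ 2 := by
        unfold cross2
        simp only [Prod.smul_fst, Prod.smul_snd, smul_eq_mul, Prod.fst_add, Prod.snd_add]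
        ring
      rw [e]
      have : (cross2 ph ga) ^ 2 * D ≠ 0 := mul_ne_zero (pow_ne_zero _ hC) hD
      positivity

end H24

open H24

theorem slide_geom : SlideGeomStmt := by
  intro L e g0 v w θ D hL he hf hg hoe hof hog hx hv hno hD0 hθ0 hθ1 hD
  have hfne : proj v ≠ proj w := hL.flat _ hf hof
  have hgne : proj g0 ≠ proj v := hL.flat _ hg hog
  have hfg : ((v, w) : R3 × R3) ≠ (g0, v) := by
    intro h
    have h1 : v = g0 := congrArg Prod.fst h
    exact hgne (by rw [h1])
  have hNC : NC (v, w) (g0, v) := by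
    rcases hL.pair _ hf _ hg hof hog hfg with h | h
    · exact h
    · exact absurd (h.symm) (hno _ hf hof)
  -- the crossing point
  obtain ⟨θ', φ1, D', hθ'0, hθ'1, hφ0, hφ1, hD'0, hpt, hD'⟩ := hx.param
  have hθθ : θ' = θ := by
    have h1 := hD θ
    rw [hD' θ, sub_self, zero_mul] at h1
    rcases mul_eq_zero.1 h1 with h | h
    · linarith
    · exact absurd h hD'0
  subst hθθ
  set ph : ℝ × ℝ := proj w - proj v with hph
  set ga : ℝ × ℝ := proj g0 - proj v with hga
  have hph0 : ph ≠ 0 := fun h => hfne (sub_eq_zero.1 h).symm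
  have hga0 : ga ≠ 0 := fun h => hgne (sub_eq_zero.1 h)
  have hpφ : proj (pt e θ') = proj v + φ1 • ph := by
    rw [hpt, proj_pt, hph]
    simp only
    module
  obtain ⟨m, hm1, hm2⟩ := exists_dir hph0
    (fun c hc => not_pos_parallel hNC hfne hgne hc) hD0
  set C : ℝ := cross2 ph ga with hC
  set M : ℝ := cross2 ph m with hM
  set G : ℝ := cross2 m ga with hG
  have hM0 : M ≠ 0 := by
    intro h; rw [h] at hm2; simp at hm2
  have hG0 : G ≠ 0 := by
    intro h; rw [h] at hm2; simp at hm2
  set lam : ℝ := |M| / (2 * (|C| + 1)) with hlam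
  have hlam0 : 0 < lam := by
    have := abs_pos.2 hM0
    positivity
  have hlamC : |lam * C| ≤ |M| / 2 := by
    rw [abs_mul, abs_of_pos hlam0, hlam, div_mul_eq_mul_div, div_le_iff₀ (by positivity)]
    have h1 := abs_nonneg M
    have h2 := abs_nonneg C
    nlinarith [mul_nonneg h1 h2]
  -- signs of `lam * C ± M`
  have hDM : |D * (lam * C)| ≤ -(D * M) / 2 := by
    rw [abs_mul]
    have h1 : -(D * M) = |D| * |M| := by rw [← abs_mul, abs_of_neg hm1]
    rw [h1]
    have := mul_le_mul_of_nonneg_left hlamC (abs_nonneg D)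
    linarith
  have ha1 : D * cross2 ph (lam • ga + m) < 0 := by
    have e1 : D * cross2 ph (lam • ga + m) = D * (lam * C) + D * M := by
      rw [hC, hM]; unfold cross2
      simp only [Prod.smul_fst, Prod.smul_snd, smul_eq_mul, Prod.fst_add, Prod.snd_add]
      ring
    rw [e1]
    have := (abs_le.1 hDM).2
    linarith
  have hb1 : 0 < D * cross2 ph (lam • ga - m) := by
    have e1 : D * cross2 ph (lam • ga - m) = D * (lam * C) - D * M := by
      rw [hC, hM]; unfold cross2
      simp only [Prod.smul_fst, Prod.smul_snd, smul_eq_mul, Prod.fst_sub, Prod.snd_sub]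
      ring
    rw [e1]
    have := (abs_le.1 hDM).1
    linarith
  refine ⟨lam • ga + m, lam • ga - m, ha1, hb1, fun H => ?_⟩
  set a : ℝ × ℝ := lam • ga + m with ha
  set b : ℝ × ℝ := lam • ga - m with hb
  set A : ℝ → R3 := fun ε => ![v 0 + ε * a.1, v 1 + ε * a.2, H] with hA
  set B : ℝ → R3 := fun ε => ![v 0 + ε * b.1, v 1 + ε * b.2, H] with hB
  have pA : ∀ ε, proj (A ε) = proj v + ε • a := by
    intro ε; ext <;> simp [proj, hA]
  have pB : ∀ ε, proj (B ε) = proj v + ε • b := by
    intro ε; ext <;> simp [proj, hB]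
  set d : ℝ × ℝ := proj e.2 - proj e.1 with hd
  have pX : ∀ s : ℝ, proj (pt e (θ' + s)) = proj v + φ1 • ph + s • d := by
    intro s
    rw [← hpφ, proj_pt, proj_pt, hd]
    module
  -- formulas for the sides
  have sgA : ∀ ε, side (g0, v) (A ε) = ε * G := by
    intro ε
    unfold side
    rw [pA, ha, hG, hga]
    unfold cross2
    simp only [Prod.smul_fst, Prod.smul_snd, smul_eq_mul, Prod.fst_add, Prod.snd_add, Prod.fst_sub,
      Prod.snd_sub]
    ring
  have sgB : ∀ ε, side (g0, v) (B ε) = -(ε * G) := by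
    intro ε
    unfold side
    rw [pB, hb, hG, hga]
    unfold cross2
    simp only [Prod.smul_fst, Prod.smul_snd, smul_eq_mul, Prod.fst_add, Prod.snd_add, Prod.fst_sub,
      Prod.snd_sub]
    ring
  have sABv : ∀ ε, side (A ε, B ε) v = 2 * ε ^ 2 * lam * G := by
    intro ε
    unfold side
    simp only [pA, pB]
    rw [ha, hb, hG]
    unfold cross2
    simp only [Prod.smul_fst, Prod.smul_snd, smul_eq_mul, Prod.fst_add, Prod.snd_add, Prod.fst_sub,
      Prod.snd_sub]
    ring
  have sABg : ∀ ε, side (A ε, B ε) g0 = -(2 * ε * (1 - ε * lam) * G) := by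
    intro ε
    unfold side
    simp only [pA, pB]
    have : proj g0 = proj v + ga := by rw [hga]; module
    rw [this, ha, hb, hG]
    unfold cross2
    simp only [Prod.smul_fst, Prod.smul_snd, smul_eq_mul, Prod.fst_add, Prod.snd_add, Prod.fst_sub,
      Prod.snd_sub]
    ring
  have sABw : ∀ ε, side (A ε, B ε) w = 2 * ε * M + 2 * ε ^ 2 * lam * G := by
    intro ε
    unfold side
    simp only [pA, pB]
    have : proj w = proj v + ph := by rw [hph]; module
    rw [this, ha, hb, hG, hM]
    unfold cross2
    simp only [Prod.smul_fst, Prod.smul_snd, smul_eq_mul, Prod.fst_add, Prod.snd_add, Prod.fst_sub,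
      Prod.snd_sub]
    ring
  have sABx : ∀ ε s, side (A ε, B ε) (pt e (θ' + s)) =
      2 * ε * (φ1 * M + ε * lam * G - s * cross2 m d) := by
    intro ε s
    unfold side
    simp only [pA, pB, pX]
    rw [ha, hb, hG, hM]
    unfold cross2
    simp only [Prod.smul_fst, Prod.smul_snd, smul_eq_mul, Prod.fst_add, Prod.snd_add, Prod.fst_sub,
      Prod.snd_sub]
    ring
  have sgx : ∀ s, side (g0, v) (pt e (θ' + s)) = φ1 * C - s * cross2 ga d := by
    intro s
    unfold side
    simp only [pX]
    rw [hC, hga]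
    unfold cross2
    simp only [Prod.smul_fst, Prod.smul_snd, smul_eq_mul, Prod.fst_add, Prod.snd_add, Prod.fst_sub,
      Prod.snd_sub]
    ring
  have sfA : ∀ ε, side (v, w) (A ε) = ε * cross2 ph a := by
    intro ε
    unfold side
    rw [pA, add_sub_cancel_left, cross2_smul_right]
  have sfB : ∀ ε, side (v, w) (B ε) = ε * cross2 ph b := by
    intro ε
    unfold side
    rw [pB, add_sub_cancel_left, cross2_smul_right]
  have sfg : side (v, w) g0 = C := rfl
  have hD2 : 0 < D * D := mul_self_pos.2 hD0
  -- the eventual inequalities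
  have e1 : ∀ᶠ ε in 𝓝[>] (0 : ℝ), 0 < v 1 + ε * a.2 := by
    refine ev_pos (F := fun ε => v 1 + ε * a.2) (by fun_prop) ?_
    simpa using hv
  have e2 : ∀ᶠ ε in 𝓝[>] (0 : ℝ), 0 < v 1 + ε * b.2 := by
    refine ev_pos (F := fun ε => v 1 + ε * b.2) (by fun_prop) ?_
    simpa using hv
  have e3 : ∀ᶠ ε in 𝓝[>] (0 : ℝ), 0 < 1 - ε * lam := by
    refine ev_pos (F := fun ε => 1 - ε * lam) (by fun_prop) ?_
    simp
  have e4 : ∀ᶠ ε in 𝓝[>] (0 : ℝ), ∀ h ∈ edges L, OuterE h → h ≠ (v, w) → h ≠ (g0, v) →
      Disjoint (pseg (A ε, B ε)) (pseg h) := by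
    have : ∀ᶠ ε in 𝓝[>] (0 : ℝ), ∀ h ∈ (edges L).toFinset, OuterE h → h ≠ (v, w) → h ≠ (g0, v) →
        Disjoint (pseg (A ε, B ε)) (pseg h) := by
      rw [Filter.eventually_all_finset]
      intro h hh
      rw [List.mem_toFinset] at hh
      by_cases hc : OuterE h ∧ h ≠ (v, w) ∧ h ≠ (g0, v)
      · obtain ⟨c1, c2, c3⟩ := hc
        have hvh : v ∉ ends h := by
          rintro (h' | h')
          · exact c2 (edges_eq_of_fst hL.knot.nodup hh hf h'.symm)
          · have h' : v = h.2 := h'
            exact c3 (edges_eq_of_snd hL.knot.nodup hh hg h'.symm)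
        have hvp : proj v ∉ pseg h := by
          rintro ⟨q, hq, hqv⟩
          rcases hL.pair _ hf _ hh hof c1 c2.symm with h' | h'
          · exact hvh (h' v (left_mem_seg (v, w)) q hq hqv.symm).2.2
          · have h2 := h'.2
            have h3 : side h v = 0 := by rw [← side_congr h hqv]; exact side_mem_seg hq
            simp only [h3, zero_mul, lt_irrefl] at h2
        have hd' : Disjoint (segment ℝ (proj v) (proj v)) (pseg h) := by
          rw [segment_same, Set.disjoint_singleton_left]
          exact hvp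
        have := eventually_disjoint (isCompact_pseg h) hd' (p := fun ε => proj (A ε))
          (q := fun ε => proj (B ε)) (by simp only [pA]; exact tendsto_vertex _ _)
          (by simp only [pB]; exact tendsto_vertex _ _)
        filter_upwards [this] with ε hε _ _ _
        rw [pseg_eq]
        exact hε
      · filter_upwards with ε k1 k2 k3
        exact absurd ⟨k1, k2, k3⟩ hc
    filter_upwards [this] with ε hε h hh
    exact hε h (by simpa using hh)
  have e5 : ∀ᶠ ε in 𝓝[>] (0 : ℝ), D * C < 0 → 0 < G * side (g0, v) (pt e (θ' - ε)) := by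
    by_cases hc : D * C < 0
    · have hGC : 0 < G * (φ1 * C) := by
        -- sgn C = - sgn D = sgn M = sgn G
        have h1 : 0 < C * M := by
          have : 0 < (D * C) * (D * M) := mul_pos_of_neg_of_neg hc hm1
          have h3 : (D * C) * (D * M) = (D * D) * (C * M) := by ring
          rw [h3] at this
          exact pos_of_mul_pos_right this hD2.le
        have h2 : 0 < (C * M) * (M * G) := mul_pos h1 hm2
        have h4 : (C * M) * (M * G) = (M * M) * (G * C) := by ring
        rw [h4] at h2
        have h5 : 0 < G * C := pos_of_mul_pos_right h2 (mul_self_nonneg M)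
        have h6 : G * (φ1 * C) = φ1 * (G * C) := by ring
        rw [h6]; exact mul_pos hφ0 h5
      have := ev_pos (F := fun ε => G * (φ1 * C - (-ε) * cross2 ga d)) (by fun_prop)
        (by simpa using hGC)
      filter_upwards [this] with ε hε _
      rw [sub_eq_add_neg θ' ε, sgx]
      exact hε
    · filter_upwards with ε h
      exact absurd h hc
  have e6 : ∀ᶠ ε in 𝓝[>] (0 : ℝ), 0 < D * C → G * side (g0, v) (pt e (θ' + ε)) < 0 := by
    by_cases hc : 0 < D * C
    · have hGC : 0 < -(G * (φ1 * C)) := by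
        have h1 : C * M < 0 := by
          have : (D * C) * (D * M) < 0 := mul_neg_of_pos_of_neg hc hm1
          have h3 : (D * C) * (D * M) = (D * D) * (C * M) := by ring
          rw [h3] at this
          by_contra hcon
          push Not at hcon
          have := mul_nonneg hD2.le hcon
          linarith
        have h2 : (C * M) * (M * G) < 0 := mul_neg_of_neg_of_pos h1 hm2
        have h4 : (C * M) * (M * G) = (M * M) * (G * C) := by ring
        rw [h4] at h2
        have h5 : G * C < 0 := by
          by_contra hcon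
          push Not at hcon
          have := mul_nonneg (mul_self_nonneg M) hcon
          linarith
        have h6 : G * (φ1 * C) = φ1 * (G * C) := by ring
        rw [h6]
        have := mul_neg_of_pos_of_neg hφ0 h5
        linarith
      have := ev_pos (F := fun ε => -(G * (φ1 * C - ε * cross2 ga d))) (by fun_prop)
        (by simpa using hGC)
      filter_upwards [this] with ε hε _
      rw [sgx]
      linarith
    · filter_upwards with ε h
      exact absurd h hc
  have e7 : ∀ᶠ ε in 𝓝[>] (0 : ℝ), 0 < M * (φ1 * M + ε * lam * G - (-ε) * cross2 m d) := by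
    refine ev_pos (F := fun ε => M * (φ1 * M + ε * lam * G - (-ε) * cross2 m d)) (by fun_prop) ?_
    have : 0 < φ1 * (M * M) := mul_pos hφ0 (mul_self_pos.2 hM0)
    simp only [neg_zero, zero_mul, add_zero, sub_zero]
    linarith
  have e8 : ∀ᶠ ε in 𝓝[>] (0 : ℝ), 0 < M * (φ1 * M + ε * lam * G - ε * cross2 m d) := by
    refine ev_pos (F := fun ε => M * (φ1 * M + ε * lam * G - ε * cross2 m d)) (by fun_prop) ?_
    have : 0 < φ1 * (M * M) := mul_pos hφ0 (mul_self_pos.2 hM0)
    simp only [zero_mul, add_zero, sub_zero]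
    linarith
  filter_upwards [e1, e2, e3, e4, e5, e6, e7, e8, self_mem_nhdsWithin] with ε h1 h2 h3 h4 h5 h6
    h7 h8 h9
  have h9 : 0 < ε := h9
  have hGG : 0 < G * G := mul_self_pos.2 hG0
  refine ⟨h1, h2, ⟨?_, ?_⟩, ?_, h4, ?_, ?_, ?_, ?_⟩
  · -- XR, first half
    show side (A ε, B ε) g0 * side (A ε, B ε) v < 0
    rw [sABg, sABv]
    have : -(2 * ε * (1 - ε * lam) * G) * (2 * ε ^ 2 * lam * G)
        = -(4 * ε ^ 3 * lam * (1 - ε * lam) * (G * G)) := by ring
    rw [this]
    have : 0 < 4 * ε ^ 3 * lam * (1 - ε * lam) * (G * G) := by positivity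
    linarith
  · show side (g0, v) (A ε) * side (g0, v) (B ε) < 0
    rw [sgA, sgB]
    have : ε * G * -(ε * G) = -(ε ^ 2 * (G * G)) := by ring
    rw [this]
    have : 0 < ε ^ 2 * (G * G) := by positivity
    linarith
  · -- NC (A, B) f
    refine (NC_of_sep (h := (A ε, B ε)) (e := (v, w)) (f := (A ε, B ε)) (s := -G) ?_ ?_ ?_ ?_).symm
    · show -G * side (A ε, B ε) v < 0
      rw [sABv]
      have : -G * (2 * ε ^ 2 * lam * G) = -(2 * ε ^ 2 * lam * (G * G)) := by ring
      rw [this]
      have : 0 < 2 * ε ^ 2 * lam * (G * G) := by positivity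
      linarith
    · show -G * side (A ε, B ε) w < 0
      rw [sABw]
      have : -G * (2 * ε * M + 2 * ε ^ 2 * lam * G)
          = -(2 * ε * (M * G)) - 2 * ε ^ 2 * lam * (G * G) := by ring
      rw [this]
      have k1 : 0 < 2 * ε ^ 2 * lam * (G * G) := by positivity
      have k2 : 0 < 2 * ε * (M * G) := by positivity
      linarith
    · simp
    · simp
  · -- NC (x1, A) g
    have sx : D * side (v, w) (pt e (θ' - ε)) < 0 := by
      rw [hD]
      have : D * ((θ' - ε - θ') * D) = -(ε * (D * D)) := by ring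
      rw [this]
      have := mul_pos h9 hD2
      linarith
    have sA : D * side (v, w) (A ε) < 0 := by
      rw [sfA]
      have : D * (ε * cross2 ph a) = ε * (D * cross2 ph a) := by ring
      rw [this]
      exact mul_neg_of_pos_of_neg h9 ha1
    by_cases hc : D * C < 0
    · refine NC_of_sep (h := (g0, v)) (s := -G) ?_ ?_ (by simp) (by simp)
      · show -G * side (g0, v) (pt e (θ' - ε)) < 0
        have := h5 hc
        linarith
      · show -G * side (g0, v) (A ε) < 0
        rw [sgA]
        have : -G * (ε * G) = -(ε * (G * G)) := by ring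
        rw [this]
        have := mul_pos h9 hGG
        linarith
    · push Not at hc
      refine NC_of_sep (h := (v, w)) (s := D) sx sA ?_ (by simp)
      show 0 ≤ D * side (v, w) g0
      rw [sfg]; exact hc
  · -- NC (B, y1) g
    have sx : -D * side (v, w) (pt e (θ' + ε)) < 0 := by
      rw [hD]
      have : -D * ((θ' + ε - θ') * D) = -(ε * (D * D)) := by ring
      rw [this]
      have := mul_pos h9 hD2
      linarith
    have sB : -D * side (v, w) (B ε) < 0 := by
      rw [sfB]
      have : -D * (ε * cross2 ph b) = -(ε * (D * cross2 ph b)) := by ring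
      rw [this]
      have := mul_pos h9 hb1
      linarith
    by_cases hc : 0 < D * C
    · refine NC_of_sep (h := (g0, v)) (s := G) ?_ ?_ (by simp) (by simp)
      · show G * side (g0, v) (B ε) < 0
        rw [sgB]
        have : G * -(ε * G) = -(ε * (G * G)) := by ring
        rw [this]
        have := mul_pos h9 hGG
        linarith
      · show G * side (g0, v) (pt e (θ' + ε)) < 0
        exact h6 hc
    · push Not at hc
      refine NC_of_sep (h := (v, w)) (s := -D) sB sx ?_ (by simp)
      show 0 ≤ -D * side (v, w) g0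
      rw [sfg]; linarith
  · -- NC (x1, A) (A, B)
    refine NC_adj' ?_
    show side (A ε, B ε) (pt e (θ' - ε)) ≠ 0
    rw [sub_eq_add_neg, sABx]
    intro h0
    rcases mul_eq_zero.1 h0 with h0 | h0
    · linarith
    · rw [h0, mul_zero] at h7
      exact lt_irrefl _ h7
  · -- NC (A, B) (B, y1)
    refine NC_adj ?_
    show side (A ε, B ε) (pt e (θ' + ε)) ≠ 0
    rw [sABx]
    intro h0
    rcases mul_eq_zero.1 h0 with h0 | h0
    · linarith
    · rw [h0, mul_zero] at h8
      exact lt_irrefl _ h8

end Pool.Agent.LinKnot
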