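import Pool.Agent.Lib.MP_188a32_co.Basic

/-!
# Sign cells with few crossings (Task A of MP_188a32_co)
-/

set_option autoImplicit false

namespace Pool.Agent.LinKnot.H24

open scoped Classical
open Finset Module

section Cell

variable {V : Type} [AddCommGroup V] [Module ℝ V]

/-- The closed sign cell of `u` with respect to a finite set of linear forms. -/
def cell (Y : Finset (V →ₗ[ℝ] ℝ)) (u : V) : Set V :=
  {r | ∀ y ∈ Y, 0 ≤ y r * y u ∧ (y u = 0 → y r = 0)}

/-- A linear form crosses a set if it takes both signs on it. -/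
def CrossSet (f : V →ₗ[ℝ] ℝ) (S : Set V) : Prop := (∃ r ∈ S, 0 < f r) ∧ ∃ r ∈ S, f r < 0

lemma CrossSet.mono {f : V →ₗ[ℝ] ℝ} {S T : Set V} (h : CrossSet f S) (hST : S ⊆ T) :
    CrossSet f T :=
  ⟨h.1.imp fun _ hr => ⟨hST hr.1, hr.2⟩, h.2.imp fun _ hr => ⟨hST hr.1, hr.2⟩⟩

lemma crossSet_neg {f : V →ₗ[ℝ] ℝ} {S : Set V} : CrossSet (-f) S ↔ CrossSet f S := by
  unfold CrossSet
  constructor <;> rintro ⟨⟨a, ha, h1⟩, ⟨b, hb, h2⟩⟩ <;>
    exact ⟨⟨b, hb, by simpa using h2⟩, ⟨a, ha, by simpa using h1⟩⟩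

lemma cell_mono {Y Z : Finset (V →ₗ[ℝ] ℝ)} (h : Y ⊆ Z) (u : V) : cell Z u ⊆ cell Y u :=
  fun _ hr y hy => hr y (h hy)

lemma self_mem_cell (Y : Finset (V →ₗ[ℝ] ℝ)) (u : V) : u ∈ cell Y u :=
  fun _ _ => ⟨mul_self_nonneg _, id⟩

lemma cell_trans {Y : Finset (V →ₗ[ℝ] ℝ)} {u r s : V} (hr : r ∈ cell Y u) (hs : s ∈ cell Y r) :
    s ∈ cell Y u := by
  intro y hy
  obtain ⟨h1, h2⟩ := hr y hy
  obtain ⟨h3, h4⟩ := hs y hy
  refine ⟨?_, fun h => h4 (h2 h)⟩
  by_cases h0 : y r = 0
  · rw [h4 h0]; simp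
  · have h5 : 0 < (y r) ^ 2 := by positivity
    have h6 : 0 ≤ (y s * y u) * (y r) ^ 2 := by nlinarith [mul_nonneg h1 h3]
    exact nonneg_of_mul_nonneg_left h6 h5

lemma smul_mem_cell {Y : Finset (V →ₗ[ℝ] ℝ)} {u r : V} (hr : r ∈ cell Y u) {c : ℝ} (hc : 0 ≤ c) :
    c • r ∈ cell Y u := by
  intro y hy
  obtain ⟨h1, h2⟩ := hr y hy
  refine ⟨?_, fun h => ?_⟩
  · rw [map_smul, smul_eq_mul, mul_assoc]; exact mul_nonneg hc h1
  · rw [map_smul, h2 h, smul_zero]

lemma cell_congr {Y : Finset (V →ₗ[ℝ] ℝ)} {u v : V}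
    (h : ∀ y ∈ Y, SignType.sign (y u) = SignType.sign (y v)) : cell Y u = cell Y v := by
  have key : ∀ {u v : V}, (∀ y ∈ Y, SignType.sign (y u) = SignType.sign (y v)) →
      cell Y u ⊆ cell Y v := by
    intro u v h r hr
    refine cell_trans (Y := Y) (r := u) ?_ hr
    intro y hy
    have := h y hy
    refine ⟨?_, fun h0 => ?_⟩
    · rcases lt_trichotomy (y u) 0 with h1 | h1 | h1
      · rw [sign_neg h1] at this
        have h2 := sign_eq_neg_one_iff.mp this.symm
        exact (mul_pos_of_neg_of_neg h1 h2).le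
      · rw [h1]; simp
      · rw [sign_pos h1] at this
        have h2 := sign_eq_one_iff.mp this.symm
        exact (mul_pos h1 h2).le
    · rw [h0, sign_zero] at this
      exact sign_eq_zero_iff.mp this
  exact Set.Subset.antisymm (key h) (key fun y hy => (h y hy).symm)

/-- One can move slightly inside the cell in the direction opposite to any of its points. -/
lemma sub_smul_mem_cell {Y : Finset (V →ₗ[ℝ] ℝ)} {u r : V} (hr : r ∈ cell Y u) :
    ∃ δ : ℝ, 0 < δ ∧ u - δ • r ∈ cell Y u := by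
  have hb : ∀ y ∈ Y, ∃ δ : ℝ, 0 < δ ∧ ∀ δ' : ℝ, 0 < δ' → δ' ≤ δ →
      0 ≤ y (u - δ' • r) * y u ∧ (y u = 0 → y (u - δ' • r) = 0) := by
    intro y hy
    obtain ⟨h1, h2⟩ := hr y hy
    by_cases h0 : y u = 0
    · refine ⟨1, one_pos, fun δ' _ _ => ?_⟩
      simp [h0, h2 h0]
    · by_cases hr0 : y r = 0
      · refine ⟨1, one_pos, fun δ' _ _ => ?_⟩
        simp only [map_sub, map_smul, hr0, smul_zero, sub_zero]
        exact ⟨mul_self_nonneg _, id⟩
      · have hpos : 0 < y r * y u := lt_of_le_of_ne h1 (Ne.symm (mul_ne_zero hr0 h0))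
        refine ⟨(y u) ^ 2 / (y r * y u), by positivity, fun δ' hδ' hle => ⟨?_, fun h => absurd h h0⟩⟩
        have := (le_div_iff₀ hpos).mp hle
        rw [map_sub, map_smul, smul_eq_mul]
        nlinarith
  choose! δ hδ hδ' using hb
  by_cases hY : Y.Nonempty
  · obtain ⟨y0, hy0, hmin⟩ := Y.exists_min_image δ hY
    exact ⟨δ y0, hδ y0 hy0, fun y hy => hδ' y hy (δ y0) (hδ y0 hy0) (hmin y hy)⟩
  · rw [Finset.not_nonempty_iff_eq_empty] at hY
    refine ⟨1, one_pos, fun y hy => ?_⟩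
    simp [hY] at hy

/-- If `f` is nonnegative at `u` and does not cross the cell of `u`, it is nonnegative on it. -/
lemma nonneg_of_not_crossSet {Y : Finset (V →ₗ[ℝ] ℝ)} {u : V} {f : V →ₗ[ℝ] ℝ}
    (hf : 0 ≤ f u) (hc : ¬ CrossSet f (cell Y u)) {r : V} (hr : r ∈ cell Y u) : 0 ≤ f r := by
  by_contra hneg
  push Not at hneg
  obtain ⟨δ, hδ, hmem⟩ := sub_smul_mem_cell hr
  refine hc ⟨⟨_, hmem, ?_⟩, ⟨r, hr, hneg⟩⟩
  rw [map_sub, map_smul, smul_eq_mul]
  nlinarith

end Cell

/-- The uniform cell property in dimension `D` with loss `ε`. -/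
def UC (D : ℕ) (ε : ℝ) : Prop :=
  ∃ N : ℕ, ∀ (V : Type) [AddCommGroup V] [Module ℝ V] [FiniteDimensional ℝ V],
    Module.finrank ℝ V = D → ∀ (X : Type) [Fintype X] (w : X → ℝ), (∀ x, 0 ≤ w x) →
    ∀ u : X → V, ∃ Y : Finset (V →ₗ[ℝ] ℝ), Y.card ≤ N ∧
      ∀ f : V →ₗ[ℝ] ℝ, (∑ x with CrossSet f (cell Y (u x)), w x) ≤ ε * ∑ x, w x

lemma UC.mono {D : ℕ} {ε ε' : ℝ} (h : UC D ε) (hε : ε ≤ ε') : UC D ε' := by
  obtain ⟨N, hN⟩ := h
  refine ⟨N, fun V _ _ _ hV X _ w hw u => ?_⟩
  obtain ⟨Y, hY, hf⟩ := hN V hV X w hw u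
  exact ⟨Y, hY, fun f => (hf f).trans
    (mul_le_mul_of_nonneg_right hε (Finset.sum_nonneg fun x _ => hw x))⟩

lemma UC_one (D : ℕ) : UC D 1 := by
  refine ⟨0, fun V _ _ _ hV X _ w hw u => ⟨∅, by simp, fun f => ?_⟩⟩
  rw [one_mul]
  exact Finset.sum_le_sum_of_subset_of_nonneg (Finset.filter_subset _ _) fun x _ _ => hw x

lemma UC.mul {D : ℕ} {κ₁ κ₂ : ℝ} (h1 : UC D κ₁) (h2 : UC D κ₂) (hκ₂ : 0 ≤ κ₂) :
    UC D (κ₂ * κ₁) := by
  obtain ⟨N1, h1⟩ := h1
  obtain ⟨N2, h2⟩ := h2
  refine ⟨N1 + 3 ^ N1 * N2, fun V _ _ _ hV X _ w hw u => ?_⟩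
  obtain ⟨Y1, hY1, hc1⟩ := h1 V hV X w hw u
  let cls : X → (↥Y1 → SignType) := fun x y => SignType.sign (y.1 (u x))
  have h3 : ∀ c : ↥Y1 → SignType, ∃ Y : Finset (V →ₗ[ℝ] ℝ), Y.card ≤ N2 ∧
      ∀ f : V →ₗ[ℝ] ℝ, (∑ x with CrossSet f (cell Y (u x)), (if cls x = c then w x else 0)) ≤
        κ₂ * ∑ x, (if cls x = c then w x else 0) := by
    intro c
    exact h2 V hV X _ (fun x => by split_ifs <;> simp [hw]) u
  choose Y2 hY2 hc2 using h3
  refine ⟨Y1 ∪ Finset.univ.biUnion Y2, ?_, fun f => ?_⟩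
  · refine (Finset.card_union_le _ _).trans (add_le_add hY1 ?_)
    refine (Finset.card_biUnion_le).trans ?_
    refine (Finset.sum_le_card_nsmul _ _ N2 fun c _ => hY2 c).trans ?_
    rw [smul_eq_mul]
    refine Nat.mul_le_mul_right _ ?_
    have h3 : Fintype.card SignType = 3 := rfl
    rw [Finset.card_univ, Fintype.card_fun, Fintype.card_coe, h3]
    exact Nat.pow_le_pow_right (by norm_num) hY1
  · set Y := Y1 ∪ Finset.univ.biUnion Y2 with hY
    have hY1s : Y1 ⊆ Y := Finset.subset_union_left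
    have hY2s : ∀ c, Y2 c ⊆ Y := fun c =>
      (Finset.subset_biUnion_of_mem Y2 (Finset.mem_univ c)).trans Finset.subset_union_right
    have key : ∀ c : ↥Y1 → SignType,
        (∑ x, if CrossSet f (cell Y (u x)) ∧ cls x = c then w x else 0) ≤
        κ₂ * ∑ x, if CrossSet f (cell Y1 (u x)) ∧ cls x = c then w x else 0 := by
      intro c
      by_cases hex : ∃ x, CrossSet f (cell Y1 (u x)) ∧ cls x = c
      · obtain ⟨x0, hx0, hx0c⟩ := hex
        have hall : ∀ x, (CrossSet f (cell Y1 (u x)) ∧ cls x = c) ↔ cls x = c := by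
          intro x
          refine ⟨fun h => h.2, fun h => ⟨?_, h⟩⟩
          have : cell Y1 (u x) = cell Y1 (u x0) := by
            refine cell_congr fun y hy => ?_
            have := congrFun (h.trans hx0c.symm) ⟨y, hy⟩
            exact this
          rw [this]; exact hx0
        simp only [hall]
        refine le_trans ?_ (hc2 c f)
        rw [Finset.sum_filter]
        refine Finset.sum_le_sum fun x _ => ?_
        by_cases hx : CrossSet f (cell Y (u x))
        · have hx' : CrossSet f (cell (Y2 c) (u x)) := hx.mono (cell_mono (hY2s c) _)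
          simp [hx, hx']
        · simp only [hx, false_and, if_false]
          split_ifs <;> simp [hw]
      · push Not at hex
        have e1 : (∑ x, if CrossSet f (cell Y (u x)) ∧ cls x = c then w x else 0) = 0 := by
          refine Finset.sum_eq_zero fun x _ => ?_
          rw [if_neg]
          rintro ⟨h, h'⟩
          exact hex x (h.mono (cell_mono hY1s _)) h'
        rw [e1]
        refine mul_nonneg hκ₂ (Finset.sum_nonneg fun x _ => ?_)
        split_ifs <;> simp [hw]
    have total : ∀ Z : Finset (V →ₗ[ℝ] ℝ), (∑ x with CrossSet f (cell Z (u x)), w x) =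
        ∑ c, ∑ x, if CrossSet f (cell Z (u x)) ∧ cls x = c then w x else 0 := by
      intro Z
      rw [Finset.sum_comm, Finset.sum_filter]
      refine Finset.sum_congr rfl fun x _ => ?_
      by_cases hx : CrossSet f (cell Z (u x))
      · simp [hx]
      · simp [hx]
    rw [total Y]
    calc _ ≤ ∑ c, κ₂ * ∑ x, (if CrossSet f (cell Y1 (u x)) ∧ cls x = c then w x else 0) :=
          Finset.sum_le_sum fun c _ => key c
      _ = κ₂ * (∑ x with CrossSet f (cell Y1 (u x)), w x) := by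
          rw [← Finset.mul_sum, ← total Y1]
      _ ≤ κ₂ * (κ₁ * ∑ x, w x) := mul_le_mul_of_nonneg_left (hc1 f) hκ₂
      _ = κ₂ * κ₁ * ∑ x, w x := by ring

lemma UC.pow {D : ℕ} {κ : ℝ} (h : UC D κ) (hκ : 0 ≤ κ) (j : ℕ) : UC D (κ ^ j) := by
  induction j with
  | zero => simpa using UC_one D
  | succ j ih =>
    rw [pow_succ]
    exact h.mul ih (by positivity)

lemma UC_of_lt_one {D : ℕ} {κ : ℝ} (h : UC D κ) (hκ : 0 ≤ κ) (hκ1 : κ < 1) (ε : ℝ) (hε : 0 < ε) :
    UC D ε := by
  obtain ⟨j, hj⟩ := exists_pow_lt_of_lt_one hε hκ1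
  exact (h.pow hκ j).mono hj.le

/-- Centerpoints. -/
lemma centerpoint {V : Type} [AddCommGroup V] [Module ℝ V] [FiniteDimensional ℝ V] {X : Type}
    (U : Finset X) (w : X → ℝ) (hw : ∀ x, 0 ≤ w x) (hU : 0 < ∑ x ∈ U, w x) (p : X → V) :
    ∃ c ∈ convexHull ℝ (p '' (U : Set X)), ∀ φ : V →ₗ[ℝ] ℝ, φ c = 0 →
      (∑ x ∈ U, w x) ≤ (finrank ℝ V + 1 : ℝ) * ∑ x ∈ U with 0 ≤ φ (p x), w x := by
  set W := ∑ x ∈ U, w x with hW
  set D := finrank ℝ V with hD
  have hD1 : (0 : ℝ) < D + 1 := by positivity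
  let F : Finset X → Set V := fun S => convexHull ℝ (p '' (S : Set X))
  let s : Finset (Finset X) := U.powerset.filter fun S => (D + 1 : ℝ) * ∑ x ∈ U \ S, w x < W
  have hne : (⋂ i ∈ s, F i).Nonempty := by
    refine Convex.helly_theorem' (𝕜 := ℝ) (fun i _ => convex_convexHull ℝ _) ?_
    intro I hI hcard
    rcases I.eq_empty_or_nonempty with rfl | hIne
    · simp
    · have hbound : ∑ S ∈ I, ∑ x ∈ U \ S, w x < W := by
        have h1 : ∀ S ∈ I, (∑ x ∈ U \ S, w x) < W / (D + 1) := by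
          intro S hS
          have := (Finset.mem_filter.mp (hI hS)).2
          rw [lt_div_iff₀ hD1]; linarith
        calc _ < ∑ S ∈ I, W / (D + 1 : ℝ) := Finset.sum_lt_sum_of_nonempty hIne h1
          _ = (I.card : ℝ) * (W / (D + 1)) := by simp
          _ ≤ (D + 1 : ℝ) * (W / (D + 1)) := by
              refine mul_le_mul_of_nonneg_right ?_ (by positivity)
              exact_mod_cast hcard
          _ = W := by field_simp
      have hex : ∃ x ∈ U, ∀ S ∈ I, x ∈ S := by
        by_contra hcon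
        push Not at hcon
        have h2 : W ≤ ∑ x ∈ U, ∑ S ∈ I, (if x ∉ S then w x else 0) := by
          refine Finset.sum_le_sum fun x hx => ?_
          obtain ⟨S, hS, hxS⟩ := hcon x hx
          refine le_trans (by rw [if_pos hxS]) (Finset.single_le_sum
            (f := fun S => if x ∉ S then w x else 0) (fun S _ => ?_) hS)
          split_ifs <;> simp [hw]
        rw [Finset.sum_comm] at h2
        have h3 : ∀ S ∈ I, (∑ x ∈ U, if x ∉ S then w x else 0) = ∑ x ∈ U \ S, w x := by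
          intro S _
          rw [← Finset.sum_filter, Finset.filter_notMem_eq_sdiff]
        rw [Finset.sum_congr rfl h3] at h2
        exact absurd hbound (not_lt.mpr h2)
      obtain ⟨x, hx, hxI⟩ := hex
      refine ⟨p x, ?_⟩
      simp only [Set.mem_iInter]
      intro S hS
      exact subset_convexHull ℝ _ ⟨x, hxI S hS, rfl⟩
  obtain ⟨c, hc⟩ := hne
  simp only [Set.mem_iInter] at hc
  refine ⟨c, ?_, fun φ hφ => ?_⟩
  · refine hc U ?_
    simp only [s, Finset.mem_filter, Finset.mem_powerset, subset_refl, true_and,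
      Finset.sdiff_self, Finset.sum_empty, mul_zero]
    exact hU
  · by_contra hcon
    push Not at hcon
    have hmem := hc (U.filter fun x => φ (p x) < 0) ?_
    · have hsub : F (U.filter fun x => φ (p x) < 0) ⊆ {v | φ v < 0} := by
        refine convexHull_min ?_ (convex_halfSpace_lt φ.isLinear 0)
        rintro _ ⟨x, hx, rfl⟩
        have := (Finset.mem_filter.mp (Finset.mem_coe.mp hx)).2
        exact this
      have := hsub hmem
      simp only [Set.mem_ofPred_eq] at this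
      linarith
    · simp only [s, Finset.mem_filter, Finset.mem_powerset]
      refine ⟨Finset.filter_subset _ _, ?_⟩
      have : U \ (U.filter fun x => φ (p x) < 0) = U.filter fun x => 0 ≤ φ (p x) := by
        ext x
        simp only [Finset.mem_sdiff, Finset.mem_filter, not_and, not_lt]
        tauto
      rw [this]
      exact hcon

/-- Basis forms. -/
lemma exists_basis_forms {V : Type} [AddCommGroup V] [Module ℝ V] [FiniteDimensional ℝ V] {D : ℕ}
    (hV : finrank ℝ V = D) :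
    ∃ B : Finset (V →ₗ[ℝ] ℝ), B.card ≤ D ∧ ∀ r : V, (∀ y ∈ B, y r = 0) → r = 0 := by
  let b := Module.finBasisOfFinrankEq ℝ V hV
  refine ⟨Finset.univ.image fun i => b.coord i, ?_, fun r hr => ?_⟩
  · exact Finset.card_image_le.trans (by simp)
  · refine (b.forall_coord_eq_zero_iff).mp fun i => ?_
    exact hr _ (Finset.mem_image_of_mem _ (Finset.mem_univ i))

/-- A threshold splitting a weighted set of reals, or a heavy atom. -/
lemma threshold {X : Type} (P : Finset X) (w : X → ℝ)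
    (hP : 0 < ∑ x ∈ P, w x) (q : X → ℝ) :
    (∃ t : ℝ, (∃ x ∈ P, q x = t) ∧ (∑ x ∈ P, w x) ≤ 3 * ∑ x ∈ P with q x = t, w x) ∨
    ∃ t : ℝ, (∑ x ∈ P, w x) ≤ 3 * (∑ x ∈ P with q x < t, w x) ∧
      (∑ x ∈ P, w x) ≤ 3 * (∑ x ∈ P with t < q x, w x) := by
  set W := ∑ x ∈ P, w x with hW
  have hPne : P.Nonempty := by
    rw [Finset.nonempty_iff_ne_empty]
    rintro rfl
    simp at hW
    linarith
  let S : Finset ℝ := (P.image q).filter fun t => W ≤ 3 * ∑ x ∈ P with q x ≤ t, w x
  have hS : S.Nonempty := by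
    obtain ⟨x, hx, hmax⟩ := P.exists_max_image q hPne
    refine ⟨q x, Finset.mem_filter.mpr ⟨Finset.mem_image_of_mem _ hx, ?_⟩⟩
    rw [Finset.filter_true_of_mem fun y hy => hmax y hy]
    linarith
  obtain ⟨t0, ht0, hmin⟩ := S.exists_min_image id hS
  simp only [id] at hmin
  obtain ⟨ht0P, ht0W⟩ := Finset.mem_filter.mp ht0
  obtain ⟨x0, hx0, hx0t⟩ := Finset.mem_image.mp ht0P
  have hlt : 3 * (∑ x ∈ P with q x < t0, w x) < W := by
    by_contra hcon
    push Not at hcon
    have hne : (P.filter fun x => q x < t0).Nonempty := by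
      rw [Finset.nonempty_iff_ne_empty]
      intro h
      rw [h] at hcon
      simp at hcon
      linarith
    obtain ⟨x1, hx1, hmax⟩ := (P.filter fun x => q x < t0).exists_max_image q hne
    obtain ⟨hx1P, hx1t⟩ := Finset.mem_filter.mp hx1
    have : q x1 ∈ S := by
      refine Finset.mem_filter.mpr ⟨Finset.mem_image_of_mem _ hx1P, ?_⟩
      have e1 : (P.filter fun x => q x ≤ q x1) = P.filter fun x => q x < t0 := by
        ext y
        simp only [Finset.mem_filter]
        constructor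
        · rintro ⟨h1, h2⟩; exact ⟨h1, lt_of_le_of_lt h2 hx1t⟩
        · rintro ⟨h1, h2⟩; exact ⟨h1, hmax y (Finset.mem_filter.mpr ⟨h1, h2⟩)⟩
      rw [e1]; exact hcon
    have := hmin _ this
    linarith
  by_cases hatom : W ≤ 3 * ∑ x ∈ P with q x = t0, w x
  · exact Or.inl ⟨t0, ⟨x0, hx0, hx0t⟩, hatom⟩
  · right
    push Not at hatom
    have hsplit1 : (∑ x ∈ P with q x ≤ t0, w x) =
        (∑ x ∈ P with q x < t0, w x) + ∑ x ∈ P with q x = t0, w x := by
      rw [← Finset.sum_union]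
      · refine Finset.sum_congr ?_ fun _ _ => rfl
        ext y
        simp only [Finset.mem_filter, Finset.mem_union, le_iff_lt_or_eq]
        tauto
      · rw [Finset.disjoint_filter]
        intro y _ h1 h2
        linarith
    have hsplit2 : W = (∑ x ∈ P with q x ≤ t0, w x) + ∑ x ∈ P with t0 < q x, w x := by
      rw [hW, ← Finset.sum_filter_add_sum_filter_not P (fun x => q x ≤ t0)]
      simp only [not_le]
    have hU : W < 3 * ∑ x ∈ P with t0 < q x, w x := by linarith
    have hne : (P.filter fun x => t0 < q x).Nonempty := by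
      rw [Finset.nonempty_iff_ne_empty]
      intro h
      rw [h] at hU
      simp at hU
      linarith
    obtain ⟨x1, hx1, hmin1⟩ := (P.filter fun x => t0 < q x).exists_min_image q hne
    obtain ⟨hx1P, hx1t⟩ := Finset.mem_filter.mp hx1
    refine ⟨(t0 + q x1) / 2, ?_, ?_⟩
    · have e1 : (P.filter fun x => q x < (t0 + q x1) / 2) = P.filter fun x => q x ≤ t0 := by
        ext y
        simp only [Finset.mem_filter]
        constructor
        · rintro ⟨h1, h2⟩
          refine ⟨h1, ?_⟩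
          by_contra h3
          push Not at h3
          have := hmin1 y (Finset.mem_filter.mpr ⟨h1, h3⟩)
          linarith
        · rintro ⟨h1, h2⟩
          exact ⟨h1, by linarith⟩
      rw [e1]; exact ht0W
    · have e1 : (P.filter fun x => (t0 + q x1) / 2 < q x) = P.filter fun x => t0 < q x := by
        ext y
        simp only [Finset.mem_filter]
        constructor
        · rintro ⟨h1, h2⟩
          exact ⟨h1, by linarith⟩
        · rintro ⟨h1, h2⟩
          have := hmin1 y (Finset.mem_filter.mpr ⟨h1, h2⟩)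
          exact ⟨h1, by linarith⟩
      rw [e1]; exact hU.le

/-- Transfer of non-crossing through a quotient. -/
lemma nonneg_of_quot {V : Type} [AddCommGroup V] [Module ℝ V] {K : Submodule ℝ V}
    {Y : Finset (V →ₗ[ℝ] ℝ)} {Y' : Finset ((V ⧸ K) →ₗ[ℝ] ℝ)}
    (hYY' : ∀ y ∈ Y', y ∘ₗ K.mkQ ∈ Y) {φ : V →ₗ[ℝ] ℝ} (hφ : K ≤ LinearMap.ker φ) {u r : V}
    (hu : 0 ≤ φ u) (hc : ¬ CrossSet (K.liftQ φ hφ) (cell Y' (K.mkQ u))) (hr : r ∈ cell Y u) :
    0 ≤ φ r := by
  have hr' : K.mkQ r ∈ cell Y' (K.mkQ u) := by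
    intro y hy
    exact hr _ (hYY' y hy)
  have := nonneg_of_not_crossSet (f := K.liftQ φ hφ) (by simpa using hu) hc hr'
  simpa using this

lemma UC_step (D : ℕ) (hD : 0 < D) (h : UC (D - 2) (1 / (18 * (D + 1)))) :
    UC D (1 - 1 / (18 * (D + 1))) := by
  obtain ⟨N', h⟩ := h
  refine ⟨N' + D + 2, fun V _ _ _ hV X _ w hw u => ?_⟩
  set W := ∑ x, w x with hWdef
  have hW0 : 0 ≤ W := Finset.sum_nonneg fun x _ => hw x
  have hD1 : (0 : ℝ) < 18 * (D + 1) := by positivity
  have hsum0 : ∀ G : Finset X, 0 ≤ ∑ x ∈ G, w x := fun G => Finset.sum_nonneg fun x _ => hw x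
  -- enough to find a heavy good set for every form
  suffices hgood : ∃ Y : Finset (V →ₗ[ℝ] ℝ), Y.card ≤ N' + D + 2 ∧ ∀ f : V →ₗ[ℝ] ℝ,
      ∃ G : Finset X, (∀ x ∈ G, ¬ CrossSet f (cell Y (u x))) ∧
        W ≤ 18 * (D + 1) * ∑ x ∈ G, w x by
    obtain ⟨Y, hY, hg⟩ := hgood
    refine ⟨Y, hY, fun f => ?_⟩
    obtain ⟨G, hG, hGW⟩ := hg f
    have h1 : (∑ x with CrossSet f (cell Y (u x)), w x) + ∑ x ∈ G, w x ≤ W := by
      rw [← Finset.sum_union]
      · exact Finset.sum_le_sum_of_subset_of_nonneg (Finset.subset_univ _) fun x _ _ => hw x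
      · rw [Finset.disjoint_left]
        intro x hx hx'
        exact hG x hx' (Finset.mem_filter.mp hx).2
    have h2 : W / (18 * (D + 1)) ≤ ∑ x ∈ G, w x := by
      rw [div_le_iff₀ hD1]; linarith
    have h3 : (1 - 1 / (18 * (D + 1 : ℝ))) * W = W - W / (18 * (D + 1)) := by ring
    rw [h3]; linarith
  obtain ⟨B, hBcard, hB⟩ := exists_basis_forms hV
  rcases hW0.eq_or_lt with hW00 | hWpos
  · refine ⟨∅, by simp, fun f => ⟨∅, by simp, by simp [← hW00]⟩⟩
  by_cases hzero : W ≤ 3 * ∑ x with u x = 0, w x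
  · refine ⟨B, by omega, fun f => ⟨Finset.univ.filter fun x => u x = 0, ?_, ?_⟩⟩
    · intro x hx
      have hx0 := (Finset.mem_filter.mp hx).2
      rintro ⟨⟨r, hr, hr0⟩, -⟩
      have : r = 0 := hB r fun y hy => (hr y hy).2 (by rw [hx0, map_zero])
      rw [this, map_zero] at hr0
      exact lt_irrefl _ hr0
    · refine hzero.trans (mul_le_mul_of_nonneg_right ?_ (hsum0 _))
      have : (0 : ℝ) ≤ D := by positivity
      linarith
  push Not at hzero
  -- generic form, positive on a third of the weight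
  obtain ⟨e, he⟩ : ∃ e : V →ₗ[ℝ] ℝ, W ≤ 3 * ∑ x with 0 < e (u x), w x := by
    obtain ⟨e, he⟩ := Module.exists_dual_forall_apply_ne_zero (K := ℝ)
      (fun x : {x : X // u x ≠ 0} => u x.1) fun x => x.2
    have hsplit : W = (∑ x with u x = 0, w x) + ((∑ x with 0 < e (u x), w x) +
        ∑ x with e (u x) < 0, w x) := by
      rw [← Finset.sum_union, ← Finset.sum_union]
      · rw [hWdef]
        refine Finset.sum_congr ?_ fun _ _ => rfl
        ext x
        simp only [Finset.mem_univ, Finset.mem_union, Finset.mem_filter, true_and, true_iff]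
        by_cases hx : u x = 0
        · exact Or.inl hx
        · rcases lt_or_gt_of_ne (he ⟨x, hx⟩) with h1 | h1
          · exact Or.inr (Or.inr h1)
          · exact Or.inr (Or.inl h1)
      · rw [Finset.disjoint_left]
        intro x hx hx'
        have h1 := (Finset.mem_filter.mp hx).2
        simp only [Finset.mem_union, Finset.mem_filter, Finset.mem_univ, true_and, h1, map_zero,
          lt_irrefl, or_self] at hx'
      · rw [Finset.disjoint_left]
        intro x hx hx'
        have h1 := (Finset.mem_filter.mp hx).2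
        have h2 := (Finset.mem_filter.mp hx').2
        linarith
    by_cases hpos : W ≤ 3 * ∑ x with 0 < e (u x), w x
    · exact ⟨e, hpos⟩
    · refine ⟨-e, ?_⟩
      simp only [LinearMap.neg_apply, neg_pos]
      push Not at hpos
      linarith
  set P := Finset.univ.filter fun x => 0 < e (u x) with hP
  have hPe : ∀ x ∈ P, 0 < e (u x) := fun x hx => (Finset.mem_filter.mp hx).2
  have hPpos : 0 < ∑ x ∈ P, w x := by linarith
  set p : X → V := fun x => (e (u x))⁻¹ • u x with hp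
  have hup : ∀ x ∈ P, u x = e (u x) • p x := by
    intro x hx
    rw [hp, smul_smul, mul_inv_cancel₀ (hPe x hx).ne', one_smul]
  have hep : ∀ x ∈ P, e (p x) = 1 := by
    intro x hx
    rw [hp, map_smul, smul_eq_mul, inv_mul_cancel₀ (hPe x hx).ne']
  -- injective form on the values of `p`
  obtain ⟨g, hg⟩ : ∃ g : V →ₗ[ℝ] ℝ, ∀ x y, g (p x) = g (p y) → p x = p y := by
    obtain ⟨g, hg⟩ := Module.exists_dual_forall_apply_ne_zero (K := ℝ)
      (fun z : {z : X × X // p z.1 ≠ p z.2} => p z.1.1 - p z.1.2) fun z => sub_ne_zero.mpr z.2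
    refine ⟨g, fun x y hxy => ?_⟩
    by_contra hne
    exact hg ⟨(x, y), hne⟩ (by simp [hxy])
  rcases threshold P w hPpos (fun x => g (p x)) with ⟨t, ⟨x0, hx0, hx0t⟩, hatom⟩ | ⟨t, hL, hU⟩
  · -- heavy atom
    set a := p x0 with ha
    have hea : e a = 1 := hep x0 hx0
    refine ⟨insert e (B.image fun y => y - y a • e), ?_, fun f =>
      ⟨P.filter fun x => g (p x) = t, ?_, ?_⟩⟩
    · refine (Finset.card_insert_le _ _).trans ?_
      have := Finset.card_image_le (s := B) (f := fun y => y - y a • e)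
      omega
    · intro x hx
      obtain ⟨hxP, hxt⟩ := Finset.mem_filter.mp hx
      have hpx : p x = a := hg _ _ (hxt.trans hx0t.symm)
      have hux : u x = e (u x) • a := by rw [← hpx]; exact hup x hxP
      have hray : ∀ r ∈ cell (insert e (B.image fun y => y - y a • e)) (u x),
          0 ≤ e r ∧ r = e r • a := by
        intro r hr
        constructor
        · have h1 := (hr e (Finset.mem_insert_self _ _)).1
          exact nonneg_of_mul_nonneg_left h1 (hPe x hxP)
        · rw [← sub_eq_zero]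
          refine hB _ fun y hy => ?_
          have h1 := (hr (y - y a • e)
            (Finset.mem_insert_of_mem (Finset.mem_image_of_mem _ hy))).2 ?_
          · simp only [LinearMap.sub_apply, LinearMap.smul_apply, smul_eq_mul] at h1
            rw [map_sub, map_smul, smul_eq_mul]
            linarith
          · rw [hux]
            simp only [map_smul, LinearMap.sub_apply, LinearMap.smul_apply, smul_eq_mul, hea]
            ring
      rintro ⟨⟨r, hr, hr0⟩, ⟨s, hs, hs0⟩⟩
      obtain ⟨h1, h2⟩ := hray r hr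
      obtain ⟨h3, h4⟩ := hray s hs
      rw [h2, map_smul, smul_eq_mul] at hr0
      rw [h4, map_smul, smul_eq_mul] at hs0
      have h5 : 0 < f a := by
        by_contra h6
        push Not at h6
        nlinarith [mul_nonneg h1 (neg_nonneg.2 h6)]
      nlinarith
    · have h1 : W ≤ 9 * ∑ x ∈ P with g (p x) = t, w x := by linarith
      refine h1.trans (mul_le_mul_of_nonneg_right ?_ (hsum0 _))
      have : (0 : ℝ) ≤ D := by positivity
      linarith
  · -- no heavy atom
    set U := P.filter fun x => t < g (p x) with hUdef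
    set L := P.filter fun x => g (p x) < t with hLdef
    have hUpos : 0 < ∑ x ∈ U, w x := by linarith
    have hLpos : 0 < ∑ x ∈ L, w x := by linarith
    set σ : V →ₗ[ℝ] ℝ := g - t • e with hσ
    have hσU : ∀ x ∈ U, 0 < σ (p x) := by
      intro x hx
      obtain ⟨hxP, hxt⟩ := Finset.mem_filter.mp hx
      simp only [hσ, LinearMap.sub_apply, LinearMap.smul_apply, smul_eq_mul, hep x hxP]
      linarith
    have hσL : ∀ x ∈ L, σ (p x) < 0 := by
      intro x hx
      obtain ⟨hxP, hxt⟩ := Finset.mem_filter.mp hx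
      simp only [hσ, LinearMap.sub_apply, LinearMap.smul_apply, smul_eq_mul, hep x hxP]
      linarith
    obtain ⟨cU, hcU, hcU'⟩ := centerpoint U w hw hUpos p
    obtain ⟨cL, hcL, hcL'⟩ := centerpoint L w hw hLpos p
    rw [hV] at hcU' hcL'
    have hcU1 : e cU = 1 ∧ 0 < σ cU := by
      have hsub : convexHull ℝ (p '' (U : Set X)) ⊆ {v | e v = 1} ∩ {v | 0 < σ v} := by
        refine convexHull_min ?_ ((convex_hyperplane e.isLinear 1).inter
          (convex_halfSpace_gt σ.isLinear 0))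
        rintro _ ⟨x, hx, rfl⟩
        exact ⟨hep x (Finset.mem_filter.mp (Finset.mem_coe.mp hx)).1, hσU x hx⟩
      exact hsub hcU
    have hcL1 : e cL = 1 ∧ σ cL < 0 := by
      have hsub : convexHull ℝ (p '' (L : Set X)) ⊆ {v | e v = 1} ∩ {v | σ v < 0} := by
        refine convexHull_min ?_ ((convex_hyperplane e.isLinear 1).inter
          (convex_halfSpace_lt σ.isLinear 0))
        rintro _ ⟨x, hx, rfl⟩
        exact ⟨hep x (Finset.mem_filter.mp (Finset.mem_coe.mp hx)).1, hσL x hx⟩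
      exact hsub hcL
    have hli : LinearIndependent ℝ ![cU, cL] := by
      rw [LinearIndependent.pair_iff]
      intro a b hab
      have h1 : e (a • cU + b • cL) = 0 := by rw [hab, map_zero]
      have h2 : σ (a • cU + b • cL) = 0 := by rw [hab, map_zero]
      simp only [map_add, map_smul, smul_eq_mul, hcU1.1, hcL1.1] at h1 h2
      have h3 : b = -a := by linarith
      rw [h3] at h2
      have h4 : a * (σ cU - σ cL) = 0 := by linarith
      have h5 : σ cU - σ cL ≠ 0 := by
        have := hcU1.2; have := hcL1.2; linarith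
      have h6 : a = 0 := by
        rcases mul_eq_zero.mp h4 with h | h
        · exact h
        · exact absurd h h5
      exact ⟨h6, by rw [h3, h6, neg_zero]⟩
    set K : Submodule ℝ V := Submodule.span ℝ (Set.range ![cU, cL]) with hK
    have hKfin : finrank ℝ K = 2 := by
      rw [hK, finrank_span_eq_card hli]; simp
    have hQfin : finrank ℝ (V ⧸ K) = D - 2 := by
      have := Submodule.finrank_quotient_add_finrank K
      omega
    have hKker : ∀ φ : V →ₗ[ℝ] ℝ, φ cU = 0 → φ cL = 0 → K ≤ LinearMap.ker φ := by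
      intro φ h1 h2
      rw [hK, Submodule.span_le]
      rintro _ ⟨i, rfl⟩
      fin_cases i
      · simpa using h1
      · simpa using h2
    obtain ⟨Y', hY'card, hY'⟩ := h (V ⧸ K) hQfin X w hw fun x => K.mkQ (u x)
    set Y : Finset (V →ₗ[ℝ] ℝ) := insert e (insert σ (Y'.image fun y => y ∘ₗ K.mkQ)) with hY
    have heY : e ∈ Y := Finset.mem_insert_self _ _
    have hσY : σ ∈ Y := Finset.mem_insert_of_mem (Finset.mem_insert_self _ _)
    have hYY' : ∀ y ∈ Y', y ∘ₗ K.mkQ ∈ Y := fun y hy => Finset.mem_insert_of_mem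
      (Finset.mem_insert_of_mem (Finset.mem_image_of_mem _ hy))
    have hYcard : Y.card ≤ N' + D + 2 := by
      have h1 : Y.card ≤ (insert σ (Y'.image fun y => y ∘ₗ K.mkQ)).card + 1 :=
        Finset.card_insert_le e (insert σ (Y'.image fun y => y ∘ₗ K.mkQ))
      have h2 := Finset.card_insert_le σ (Y'.image fun y => y ∘ₗ K.mkQ)
      have h3 := Finset.card_image_le (s := Y') (f := fun y => y ∘ₗ K.mkQ)
      omega
    -- counting lemma
    have hcount : ∀ S : Finset X, W ≤ 9 * ∑ x ∈ S, w x → ∀ ψ : V →ₗ[ℝ] ℝ,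
        (∑ x ∈ S, w x) ≤ ((D : ℝ) + 1) * ∑ x ∈ S with 0 ≤ ψ (p x), w x →
        ∀ hψ : K ≤ LinearMap.ker ψ, W ≤ 18 * (D + 1) *
          ∑ x ∈ S.filter (fun x => 0 ≤ ψ (p x) ∧
            ¬ CrossSet (K.liftQ ψ hψ) (cell Y' (K.mkQ (u x)))), w x := by
      intro S hS ψ hψS hψ
      have h1 : (∑ x ∈ S with 0 ≤ ψ (p x), w x) ≤ (∑ x ∈ S.filter (fun x => 0 ≤ ψ (p x) ∧
            ¬ CrossSet (K.liftQ ψ hψ) (cell Y' (K.mkQ (u x)))), w x) +
            ∑ x with CrossSet (K.liftQ ψ hψ) (cell Y' (K.mkQ (u x))), w x := by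
        rw [← Finset.sum_union]
        · refine Finset.sum_le_sum_of_subset_of_nonneg ?_ fun x _ _ => hw x
          intro x hx
          simp only [Finset.mem_union, Finset.mem_filter, Finset.mem_univ, true_and] at hx ⊢
          tauto
        · rw [Finset.disjoint_left]
          intro x hx hx'
          exact (Finset.mem_filter.mp hx).2.2 (Finset.mem_filter.mp hx').2
      have h2 := hY' (K.liftQ ψ hψ)
      rw [← hWdef] at h2
      have hD0 : (0 : ℝ) < (D : ℝ) + 1 := by positivity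
      have h3 : (1 / (18 * ((D : ℝ) + 1))) * W * (18 * (D + 1)) = W := by field_simp
      have h4 := mul_le_mul_of_nonneg_left h2 hD1.le
      have h5 := mul_le_mul_of_nonneg_left h1 hD1.le
      nlinarith
    have hWU : W ≤ 9 * ∑ x ∈ U, w x := by linarith
    have hWL : W ≤ 9 * ∑ x ∈ L, w x := by linarith
    have hUP : U ⊆ P := Finset.filter_subset _ _
    have hLP : L ⊆ P := Finset.filter_subset _ _
    have main : ∀ f : V →ₗ[ℝ] ℝ, f cL ≤ f cU → ∃ G : Finset X,
        (∀ x ∈ G, ¬ CrossSet f (cell Y (u x))) ∧ W ≤ 18 * (D + 1) * ∑ x ∈ G, w x := by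
      intro f hf
      have hden : 0 < σ cU - σ cL := by
        have := hcU1.2; have := hcL1.2; linarith
      set β : ℝ := (f cU - f cL) / (σ cU - σ cL) with hβ
      have hβ0 : 0 ≤ β := div_nonneg (by linarith) hden.le
      have hβ1 : β * (σ cU - σ cL) = f cU - f cL := div_mul_cancel₀ _ hden.ne'
      set α : ℝ := f cU - β * σ cU with hα
      set φ : V →ₗ[ℝ] ℝ := f - α • e - β • σ with hφ
      have hφU : φ cU = 0 := by
        simp only [hφ, LinearMap.sub_apply, LinearMap.smul_apply, smul_eq_mul, hcU1.1]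
        rw [hα]; ring
      have hφL : φ cL = 0 := by
        simp only [hφ, LinearMap.sub_apply, LinearMap.smul_apply, smul_eq_mul, hcL1.1]
        rw [hα]; linarith
      have hfr : ∀ r, f r = φ r + α * e r + β * σ r := by
        intro r
        simp only [hφ, LinearMap.sub_apply, LinearMap.smul_apply, smul_eq_mul]
        ring
      have her : ∀ x ∈ P, ∀ r ∈ cell Y (u x), 0 ≤ e r := fun x hx r hr =>
        nonneg_of_mul_nonneg_left (hr e heY).1 (hPe x hx)
      have hσux : ∀ x ∈ P, σ (u x) = e (u x) * σ (p x) := by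
        intro x hx
        conv_lhs => rw [hup x hx]
        rw [map_smul, smul_eq_mul]
      have hψux : ∀ ψ : V →ₗ[ℝ] ℝ, ∀ x ∈ P, 0 ≤ ψ (p x) → 0 ≤ ψ (u x) := by
        intro ψ x hx h1
        rw [hup x hx, map_smul, smul_eq_mul]
        exact mul_nonneg (hPe x hx).le h1
      by_cases hα0 : 0 ≤ α
      · have hψ : K ≤ LinearMap.ker φ := hKker φ hφU hφL
        refine ⟨_, ?_, hcount U hWU φ (hcU' φ hφU) hψ⟩
        intro x hx
        obtain ⟨hxU, hx1, hx2⟩ := Finset.mem_filter.mp hx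
        rintro ⟨-, ⟨r, hr, hr0⟩⟩
        have h1 := nonneg_of_quot hYY' hψ (hψux φ x (hUP hxU) hx1) hx2 hr
        have h2 := her x (hUP hxU) r hr
        have h3 : 0 ≤ σ r := by
          refine nonneg_of_mul_nonneg_left (hr σ hσY).1 ?_
          rw [hσux x (hUP hxU)]
          exact mul_pos (hPe x (hUP hxU)) (hσU x hxU)
        rw [hfr] at hr0
        have := mul_nonneg hα0 h2
        have := mul_nonneg hβ0 h3
        linarith
      · push Not at hα0
        have hψ : K ≤ LinearMap.ker (-φ) := hKker (-φ) (by simp [hφU]) (by simp [hφL])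
        refine ⟨_, ?_, hcount L hWL (-φ) (hcL' (-φ) (by simp [hφL])) hψ⟩
        intro x hx
        obtain ⟨hxL, hx1, hx2⟩ := Finset.mem_filter.mp hx
        rintro ⟨⟨r, hr, hr0⟩, -⟩
        have h1 := nonneg_of_quot hYY' hψ (hψux (-φ) x (hLP hxL) hx1) hx2 hr
        have h2 := her x (hLP hxL) r hr
        have h3 : 0 ≤ -σ r := by
          have h4 := (hr σ hσY).1
          have h5 : σ (u x) < 0 := by
            rw [hσux x (hLP hxL)]
            exact mul_neg_of_pos_of_neg (hPe x (hLP hxL)) (hσL x hxL)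
          nlinarith
        rw [hfr] at hr0
        simp only [LinearMap.neg_apply] at h1
        have := mul_nonneg (neg_nonneg.mpr hα0.le) h2
        have := mul_nonneg hβ0 h3
        linarith
    refine ⟨Y, hYcard, fun f => ?_⟩
    rcases le_total (f cL) (f cU) with hf | hf
    · exact main f hf
    · obtain ⟨G, hG, hGW⟩ := main (-f) (by simpa using hf)
      exact ⟨G, fun x hx hcr => hG x hx (crossSet_neg.mpr hcr), hGW⟩

lemma UC_zero (ε : ℝ) (hε : 0 ≤ ε) : UC 0 ε := by
  refine ⟨0, fun V _ _ _ hV X _ w hw u => ⟨∅, by simp, fun f => ?_⟩⟩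
  have : Subsingleton V := Module.finrank_zero_iff.mp hV
  rw [Finset.sum_eq_zero]
  · exact mul_nonneg hε (Finset.sum_nonneg fun x _ => hw x)
  · intro x hx
    obtain ⟨⟨r, -, hr⟩, -⟩ := (Finset.mem_filter.mp hx).2
    rw [Subsingleton.elim r 0, map_zero] at hr
    exact absurd hr (lt_irrefl _)

theorem UC_all (D : ℕ) : ∀ ε : ℝ, 0 < ε → UC D ε := by
  induction D using Nat.strong_induction_on with
  | _ D ih =>
    intro ε hε
    rcases Nat.eq_zero_or_pos D with rfl | hD
    · exact UC_zero ε hε.le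
    · have hD1 : (0 : ℝ) < 18 * (D + 1) := by positivity
      have h1 := UC_step D hD (ih (D - 2) (by omega) _ (by positivity))
      refine UC_of_lt_one h1 ?_ ?_ ε hε
      · rw [sub_nonneg, div_le_one hD1]
        have : (0 : ℝ) ≤ D := by positivity
        linarith
      · have : 0 < 1 / (18 * ((D : ℝ) + 1)) := by positivity
        linarith

/-! ## Conformal decomposition -/

section Conformal

variable {V : Type} [AddCommGroup V] [Module ℝ V]

/-- The vectors vanishing wherever `u` vanishes. -/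
def zsub (Y : Finset (V →ₗ[ℝ] ℝ)) (u : V) : Submodule ℝ V where
  carrier := {r | ∀ y ∈ Y, y u = 0 → y r = 0}
  add_mem' := fun ha hb y hy h => by rw [map_add, ha y hy h, hb y hy h, add_zero]
  zero_mem' := fun y _ _ => map_zero y
  smul_mem' := fun c r hr y hy h => by rw [map_smul, hr y hy h, smul_zero]

lemma mem_zsub {Y : Finset (V →ₗ[ℝ] ℝ)} {u r : V} :
    r ∈ zsub Y u ↔ ∀ y ∈ Y, y u = 0 → y r = 0 := Iff.rfl

/-- Elementary vectors. -/
def Elem (Y : Finset (V →ₗ[ℝ] ℝ)) (r : V) : Prop :=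
  r ≠ 0 ∧ ∀ s ∈ zsub Y r, ∃ c : ℝ, s = c • r

lemma Elem.smul {Y : Finset (V →ₗ[ℝ] ℝ)} {r : V} (h : Elem Y r) {c : ℝ} (hc : c ≠ 0) :
    Elem Y (c • r) := by
  refine ⟨smul_ne_zero hc h.1, fun s hs => ?_⟩
  obtain ⟨d, rfl⟩ := h.2 s (fun y hy h0 => hs y hy (by rw [map_smul, h0, smul_zero]))
  exact ⟨d * c⁻¹, by rw [smul_smul, mul_assoc, inv_mul_cancel₀ hc, mul_one]⟩

lemma Elem.eq_smul {Y : Finset (V →ₗ[ℝ] ℝ)} (hY : ∀ r : V, (∀ y ∈ Y, y r = 0) → r = 0)
    {r s : V} (hr : Elem Y r) (hs : Elem Y s)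
    (h : ∀ y ∈ Y, SignType.sign (y s) = SignType.sign (y r)) : ∃ c : ℝ, 0 < c ∧ s = c • r := by
  obtain ⟨c, rfl⟩ := hr.2 s (fun y hy h0 => by
    have := h y hy
    rw [h0, sign_zero] at this
    exact sign_eq_zero_iff.mp this)
  refine ⟨c, ?_, rfl⟩
  have hne : ∃ y ∈ Y, y r ≠ 0 := by
    by_contra hcon
    push Not at hcon
    exact hr.1 (hY r hcon)
  obtain ⟨y, hy, hyr⟩ := hne
  have h1 := h y hy
  rw [map_smul, smul_eq_mul, sign_mul] at h1
  have h2 : SignType.sign (y r) ≠ 0 := by rwa [Ne, sign_eq_zero_iff]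
  have h3 : SignType.sign c = 1 := by
    generalize SignType.sign c = a at h1
    generalize SignType.sign (y r) = b at h1 h2
    revert a b
    decide
  exact sign_eq_one_iff.mp h3

/-- Moving towards the boundary of the cell. -/
lemma exists_boundary {Y : Finset (V →ₗ[ℝ] ℝ)} (hY : ∀ r : V, (∀ y ∈ Y, y r = 0) → r = 0)
    {u r : V} (hr0 : r ≠ 0) (hr : r ∈ zsub Y u) :
    ∃ y0 ∈ Y, y0 r ≠ 0 ∧ y0 u ≠ 0 ∧ (u - (y0 u / y0 r) • r) ∈ cell Y u := by
  have hne : ∃ y ∈ Y, y r ≠ 0 := by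
    by_contra hcon
    push Not at hcon
    exact hr0 (hY r hcon)
  obtain ⟨y1, hy1, hy1r⟩ := hne
  have hy1u : y1 u ≠ 0 := fun h => hy1r (hr y1 hy1 h)
  have hZne : (Y.filter fun y => y u ≠ 0).Nonempty := ⟨y1, Finset.mem_filter.mpr ⟨hy1, hy1u⟩⟩
  obtain ⟨y0, hy0, hmax⟩ := (Y.filter fun y => y u ≠ 0).exists_max_image
    (fun y => |y r / y u|) hZne
  obtain ⟨hy0Y, hy0u⟩ := Finset.mem_filter.mp hy0
  have h1 : 0 < |y0 r / y0 u| := by
    refine lt_of_lt_of_le ?_ (hmax y1 (Finset.mem_filter.mpr ⟨hy1, hy1u⟩))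
    exact abs_pos.mpr (div_ne_zero hy1r hy1u)
  have hy0r : y0 r ≠ 0 := by
    intro h
    rw [h, zero_div, abs_zero] at h1
    exact lt_irrefl _ h1
  refine ⟨y0, hy0Y, hy0r, hy0u, fun y hy => ⟨?_, fun h => ?_⟩⟩
  · by_cases hyu : y u = 0
    · rw [hyu, mul_zero]
    · have h2 := hmax y (Finset.mem_filter.mpr ⟨hy, hyu⟩)
      have h3 : (y0 u / y0 r) * (y r / y u) ≤ 1 := by
        refine le_trans (le_abs_self _) ?_
        rw [abs_mul]
        have h4 : |y0 u / y0 r| = |y0 r / y0 u|⁻¹ := by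
          rw [← abs_inv, inv_div]
        rw [h4, inv_mul_le_iff₀ h1, mul_one]
        exact h2
      have h5 : y (u - (y0 u / y0 r) • r) * y u =
          (1 - (y0 u / y0 r) * (y r / y u)) * (y u) ^ 2 := by
        rw [map_sub, map_smul, smul_eq_mul]
        field_simp
      rw [h5]
      exact mul_nonneg (by linarith) (by positivity)
  · rw [map_sub, map_smul, h, hr y hy h, smul_zero, sub_zero]

lemma zsub_lt {Y : Finset (V →ₗ[ℝ] ℝ)} {u v r : V} (hv : v ∈ cell Y u) {y0 : V →ₗ[ℝ] ℝ}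
    (hy0 : y0 ∈ Y) (hr : r ∈ zsub Y u) (hr0 : y0 r ≠ 0) (hv0 : y0 v = 0) :
    zsub Y v < zsub Y u := by
  refine lt_of_le_of_ne (fun s hs y hy h => hs y hy ((hv y hy).2 h)) fun heq => ?_
  rw [← heq] at hr
  exact hr0 (hr y0 hy0 hv0)

lemma exists_elem [FiniteDimensional ℝ V] {Y : Finset (V →ₗ[ℝ] ℝ)}
    (hY : ∀ r : V, (∀ y ∈ Y, y r = 0) → r = 0) (n : ℕ) :
    ∀ u : V, u ≠ 0 → finrank ℝ (zsub Y u) ≤ n → ∃ r ∈ cell Y u, Elem Y r := by
  induction n with
  | zero =>
    intro u hu hn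
    have h1 : zsub Y u = ⊥ := Submodule.finrank_eq_zero.mp (Nat.le_zero.mp hn)
    have h2 : u ∈ zsub Y u := fun _ _ h => h
    rw [h1, Submodule.mem_bot] at h2
    exact absurd h2 hu
  | succ n ih =>
    intro u hu hn
    by_cases hel : Elem Y u
    · exact ⟨u, self_mem_cell Y u, hel⟩
    · have hex : ∃ r ∈ zsub Y u, ∀ c : ℝ, r ≠ c • u := by
        by_contra hcon
        push Not at hcon
        exact hel ⟨hu, hcon⟩
      obtain ⟨r, hr, hrc⟩ := hex
      have hr0 : r ≠ 0 := by simpa using hrc 0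
      obtain ⟨y0, hy0, hy0r, hy0u, hmem⟩ := exists_boundary hY hr0 hr
      have hne : u - (y0 u / y0 r) • r ≠ 0 := by
        intro h
        have h1 := sub_eq_zero.mp h
        have h2 : y0 u / y0 r ≠ 0 := div_ne_zero hy0u hy0r
        refine hrc (y0 u / y0 r)⁻¹ ?_
        rw [h1, smul_smul, ← h1, inv_mul_cancel₀ h2, one_smul]
      have hy0v : y0 (u - (y0 u / y0 r) • r) = 0 := by
        rw [map_sub, map_smul, smul_eq_mul, div_mul_cancel₀ _ hy0r, sub_self]
      have hlt := Submodule.finrank_lt_finrank_of_lt (zsub_lt hmem hy0 hr hy0r hy0v)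
      obtain ⟨s, hs, hse⟩ := ih _ hne (by omega)
      exact ⟨s, cell_trans hmem hs, hse⟩

lemma conformal [FiniteDimensional ℝ V] {Y : Finset (V →ₗ[ℝ] ℝ)}
    (hY : ∀ r : V, (∀ y ∈ Y, y r = 0) → r = 0) (n : ℕ) :
    ∀ u : V, finrank ℝ (zsub Y u) ≤ n → ∃ g : Fin n → V, u = ∑ i, g i ∧
      ∀ i, g i ∈ cell Y u ∧ (g i = 0 ∨ Elem Y (g i)) := by
  induction n with
  | zero =>
    intro u hn
    have h1 : zsub Y u = ⊥ := Submodule.finrank_eq_zero.mp (Nat.le_zero.mp hn)
    have h2 : u ∈ zsub Y u := fun _ _ h => h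
    rw [h1, Submodule.mem_bot] at h2
    exact ⟨Fin.elim0, by simp [h2], fun i => i.elim0⟩
  | succ n ih =>
    intro u hn
    by_cases hu : u = 0
    · refine ⟨fun _ => 0, by simp [hu], fun i => ⟨fun y _ => ?_, Or.inl rfl⟩⟩
      simp
    · obtain ⟨r, hr, hre⟩ := exists_elem hY _ u hu le_rfl
      have hrz : r ∈ zsub Y u := fun y hy h => (hr y hy).2 h
      obtain ⟨y0, hy0, hy0r, hy0u, hmem⟩ := exists_boundary hY hre.1 hrz
      have hy0v : y0 (u - (y0 u / y0 r) • r) = 0 := by
        rw [map_sub, map_smul, smul_eq_mul, div_mul_cancel₀ _ hy0r, sub_self]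
      have hlt := Submodule.finrank_lt_finrank_of_lt (zsub_lt hmem hy0 hrz hy0r hy0v)
      obtain ⟨g, hg, hg'⟩ := ih _ (by omega : finrank ℝ (zsub Y (u - (y0 u / y0 r) • r)) ≤ n)
      have hc : 0 < y0 u / y0 r := by
        have h1 := (hr y0 hy0).1
        have h2 : 0 < y0 r * y0 u := lt_of_le_of_ne h1 (Ne.symm (mul_ne_zero hy0r hy0u))
        have h3 : y0 u / y0 r = (y0 r * y0 u) / (y0 r) ^ 2 := by field_simp
        rw [h3]; positivity
      refine ⟨Fin.cons ((y0 u / y0 r) • r) g, ?_, fun i => ?_⟩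
      · rw [Fin.sum_univ_succ]
        simp only [Fin.cons_zero, Fin.cons_succ]
        rw [← hg]; abel
      · refine Fin.cases ?_ (fun i => ?_) i
        · simp only [Fin.cons_zero]
          exact ⟨smul_mem_cell hr hc.le, Or.inr (hre.smul hc.ne')⟩
        · simp only [Fin.cons_succ]
          exact ⟨cell_trans hmem (hg' i).1, (hg' i).2⟩

end Conformal

theorem cells (D : ℕ) (ε : ℝ) (hε : 0 < ε) : ∃ T : ℕ, ∀ (V : Type) [AddCommGroup V] [Module ℝ V]
    [FiniteDimensional ℝ V], Module.finrank ℝ V = D → ∀ (X : Type) [Fintype X] (w : X → ℝ),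
    (∀ x, 0 ≤ w x) → ∀ u : X → V, ∃ (τ : X → Fin T) (R : Fin T → Fin D → V),
      (∀ x, ∃ c : Fin D → ℝ, (∀ i, 0 < c i) ∧ u x = ∑ i, c i • R (τ x) i) ∧
      ∀ f : V →ₗ[ℝ] ℝ, (∑ x with Crosses f (R (τ x)), w x) ≤ ε * ∑ x, w x := by
  obtain ⟨N, hN⟩ := UC_all D ε hε
  refine ⟨(3 ^ (N + D)) ^ D, fun V _ _ _ hV X _ w hw u => ?_⟩
  obtain ⟨Y0, hY0, hc⟩ := hN V hV X w hw u
  obtain ⟨B, hBcard, hB⟩ := exists_basis_forms hV
  set Y := Y0 ∪ B with hYdef
  have hYcard : Y.card ≤ N + D := (Finset.card_union_le _ _).trans (add_le_add hY0 hBcard)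
  have hY : ∀ r : V, (∀ y ∈ Y, y r = 0) → r = 0 := fun r hr =>
    hB r fun y hy => hr y (Finset.mem_union_right _ hy)
  -- sign vectors
  let sv : V → (↥Y → SignType) := fun r y => SignType.sign (y.1 r)
  -- representatives
  let E : (↥Y → SignType) → V := fun s => if h : ∃ r, Elem Y r ∧ sv r = s then h.choose else 0
  have hE : ∀ r, (r = 0 ∨ Elem Y r) → ∃ c : ℝ, 0 < c ∧ r = c • E (sv r) := by
    intro r hr
    rcases hr with rfl | hr
    · refine ⟨1, one_pos, ?_⟩
      have : ¬ ∃ r, Elem Y r ∧ sv r = sv 0 := by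
        rintro ⟨r, hr, hrs⟩
        refine hr.1 (hY r fun y hy => ?_)
        have := congrFun hrs ⟨y, hy⟩
        simp only [sv, map_zero, sign_zero] at this
        exact sign_eq_zero_iff.mp this
      simp only [E, dif_neg this, smul_zero]
    · have hex : ∃ r', Elem Y r' ∧ sv r' = sv r := ⟨r, hr, rfl⟩
      obtain ⟨h1, h2⟩ := hex.choose_spec
      have h3 : E (sv r) = hex.choose := dif_pos hex
      rw [h3]
      refine h1.eq_smul hY hr fun y hy => ?_
      exact (congrFun h2 ⟨y, hy⟩).symm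
  -- the decomposition
  have hdec : ∀ x, ∃ g : Fin D → V, u x = ∑ i, g i ∧
      ∀ i, g i ∈ cell Y (u x) ∧ (g i = 0 ∨ Elem Y (g i)) := by
    intro x
    refine conformal hY D (u x) ?_
    rw [← hV]
    exact Submodule.finrank_le _
  choose g hg hg' using hdec
  choose c hc0 hc1 using hE
  -- the classes
  have hcardle : Fintype.card (Fin D → (↥Y → SignType)) ≤ (3 ^ (N + D)) ^ D := by
    have h3 : Fintype.card SignType = 3 := rfl
    rw [Fintype.card_fun, Fintype.card_fun, Fintype.card_coe, Fintype.card_fin, h3]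
    exact Nat.pow_le_pow_left (Nat.pow_le_pow_right (by norm_num) hYcard) _
  let emb : (Fin D → (↥Y → SignType)) → Fin ((3 ^ (N + D)) ^ D) := fun s =>
    Fin.castLE hcardle (Fintype.equivFin _ s)
  have hemb : Function.Injective emb := fun s t hst => by
    have := Fin.castLE_injective hcardle hst
    exact (Fintype.equivFin _).injective this
  let R : Fin ((3 ^ (N + D)) ^ D) → Fin D → V :=
    Function.extend emb (fun s i => E (s i)) (fun _ _ => 0)
  let τ : X → Fin ((3 ^ (N + D)) ^ D) := fun x => emb fun i => sv (g x i)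
  have hRτ : ∀ x i, R (τ x) i = E (sv (g x i)) := by
    intro x i
    have := hemb.extend_apply (fun s (i : Fin D) => E (s i)) (fun _ _ => 0)
      (fun i => sv (g x i))
    exact congrFun this i
  refine ⟨τ, R, fun x => ⟨fun i => c (g x i) (hg' x i).2, fun i => hc0 _ _, ?_⟩, fun f => ?_⟩
  · conv_lhs => rw [hg x]
    refine Finset.sum_congr rfl fun i _ => ?_
    rw [hRτ]
    exact hc1 _ _
  · refine le_trans ?_ (hc f)
    refine Finset.sum_le_sum_of_subset_of_nonneg ?_ fun x _ _ => hw x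
    intro x hx
    refine Finset.mem_filter.mpr ⟨Finset.mem_univ _, ?_⟩
    obtain ⟨⟨i, hi⟩, ⟨j, hj⟩⟩ := (Finset.mem_filter.mp hx).2
    have hRcell : ∀ i, R (τ x) i ∈ cell Y0 (u x) := by
      intro i
      rw [hRτ]
      have h1 : g x i ∈ cell Y0 (u x) :=
        cell_mono Finset.subset_union_left _ (hg' x i).1
      have h2 := hc1 (g x i) (hg' x i).2
      have h3 := hc0 (g x i) (hg' x i).2
      have h4 : E (sv (g x i)) = (c (g x i) (hg' x i).2)⁻¹ • g x i :=
        (eq_inv_smul_iff₀ h3.ne').mpr h2.symm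
      rw [h4]
      exact smul_mem_cell h1 (inv_nonneg.mpr h3.le)
    exact ⟨⟨_, hRcell i, hi⟩, ⟨_, hRcell j, hj⟩⟩

end Pool.Agent.LinKnot.H24
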